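import Pool.Agent.Work.MP_cfa43e_lc.Stmts

/-!
# MP_cfa43e_lc, item E11: connected sets of grid points
-/

set_option autoImplicit false

namespace Pool.Agent.PEmb

namespace IE11

/-- the step relation -/
def R (T : Set (ℕ × ℕ)) (x y : ℕ × ℕ) : Prop := x ∈ T ∧ y ∈ T ∧ GAdj x y

theorem gadj_symm {p q : ℕ × ℕ} (h : GAdj p q) : GAdj q p := by
  unfold GAdj at h ⊢
  omega

theorem R_symm (T : Set (ℕ × ℕ)) : Std.Symm (R T) :=
  ⟨fun _ _ h => ⟨h.2.1, h.1, gadj_symm h.2.2⟩⟩

theorem rt_symm {T : Set (ℕ × ℕ)} {p q : ℕ × ℕ} (h : Relation.ReflTransGen (R T) p q) :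
    Relation.ReflTransGen (R T) q p := by
  induction h with
  | refl => exact Relation.ReflTransGen.refl
  | tail _ h2 ih =>
    exact Relation.ReflTransGen.head ⟨h2.2.1, h2.1, gadj_symm h2.2.2⟩ ih

theorem hs_le (y x0 x1 a b : ℕ) (ha : x0 ≤ a) (hab : a ≤ b) (hb : b ≤ x1) :
    Relation.ReflTransGen (R (hs y x0 x1)) (a, y) (b, y) := by
  induction b, hab using Nat.le_induction with
  | base => exact Relation.ReflTransGen.refl
  | succ b hab ih =>
    refine Relation.ReflTransGen.tail (ih (by omega)) ⟨?_, ?_, ?_⟩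
    · exact ⟨rfl, by simp only; omega, by simp only; omega⟩
    · exact ⟨rfl, by simp only; omega, by simp only; omega⟩
    · unfold GAdj
      simp

theorem vs_le (x y0 y1 a b : ℕ) (ha : y0 ≤ a) (hab : a ≤ b) (hb : b ≤ y1) :
    Relation.ReflTransGen (R (vs x y0 y1)) (x, a) (x, b) := by
  induction b, hab using Nat.le_induction with
  | base => exact Relation.ReflTransGen.refl
  | succ b hab ih =>
    refine Relation.ReflTransGen.tail (ih (by omega)) ⟨?_, ?_, ?_⟩
    · exact ⟨rfl, by simp only; omega, by simp only; omega⟩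
    · exact ⟨rfl, by simp only; omega, by simp only; omega⟩
    · unfold GAdj
      simp

end IE11

open IE11 in
theorem E11 : PE11 := by
  refine ⟨?_, ?_, ?_, ?_⟩
  · rintro y x0 x1 ⟨a, y'⟩ ⟨h1, h2, h3⟩ ⟨b, y''⟩ ⟨h4, h5, h6⟩
    simp only at h1 h2 h3 h4 h5 h6
    subst h1 h4
    rcases Nat.le_total a b with h | h
    · exact hs_le _ _ _ _ _ h2 h h6
    · exact rt_symm (hs_le _ _ _ _ _ h5 h h3)
  · rintro x y0 y1 ⟨x', a⟩ ⟨h1, h2, h3⟩ ⟨x'', b⟩ ⟨h4, h5, h6⟩
    simp only at h1 h2 h3 h4 h5 h6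
    subst h1 h4
    rcases Nat.le_total a b with h | h
    · exact vs_le _ _ _ _ _ h2 h h6
    · exact rt_symm (vs_le _ _ _ _ _ h5 h h3)
  · intro S T p hS hT hpS hpT
    have key : ∀ a ∈ S ∪ T, Relation.ReflTransGen (R (S ∪ T)) a p := by
      intro a ha
      rcases ha with ha | ha
      · exact Relation.ReflTransGen.mono (fun x y h => ⟨Or.inl h.1, Or.inl h.2.1, h.2.2⟩)
          _ _ (hS a ha p hpS)
      · exact Relation.ReflTransGen.mono (fun x y h => ⟨Or.inr h.1, Or.inr h.2.1, h.2.2⟩)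
          _ _ (hT a ha p hpT)
    intro a ha b hb
    exact (key a ha).trans (rt_symm (key b hb))
  · intro p a ha b hb
    rw [Set.mem_singleton_iff] at ha hb
    rw [ha, hb]

end Pool.Agent.PEmb
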