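import Pool.Agent.Work.MP_cfa43e_lc.Stmts

/-!
# E20: the pattern from blocks
-/

set_option autoImplicit false

namespace Pool.Agent.PEmb

namespace ItE20

section paths

variable {V : Type} {G : SimpleGraph V} {S : Set V} {a b : V} {l : List V}

lemma pth_rev (h : IsPth G S a b l) : IsPth G S b a l.reverse := by
  obtain ⟨h1, h2, h3, h4, h5⟩ := h
  refine ⟨?_, List.nodup_reverse.2 h2, ?_, ?_, ?_⟩
  · rw [List.isChain_reverse]
    exact h1.imp (fun x y hxy => hxy.symm)
  · rw [List.head?_reverse]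
    exact h4
  · rw [List.getLast?_reverse]
    exact h3
  · intro x hx
    exact h5 x (List.mem_reverse.1 hx)

lemma pth_univ (h : IsPth G S a b l) : IsPth G Set.univ a b l :=
  ⟨h.1, h.2.1, h.2.2.1, h.2.2.2.1, fun _ _ => trivial⟩

lemma pth_cons (h : IsPth G S a b l) : l = a :: l.tail := by
  obtain ⟨_, _, h3, _, _⟩ := h
  cases l with
  | nil => simp at h3
  | cons x t =>
    simp only [List.head?_cons, Option.some.injEq] at h3
    rw [h3]
    rfl

lemma pth_head (h : IsPth G S a b l) : a ∈ l := by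
  rw [pth_cons h]
  exact List.mem_cons_self

lemma pth_last (h : IsPth G S a b l) : b ∈ l := by
  have h1 := pth_head (pth_rev h)
  exact List.mem_reverse.1 h1

lemma pth_mem (h : IsPth G S a b l) {v : V} (hv : v ∈ l) : v = a ∨ v ∈ l.tail := by
  rw [pth_cons h] at hv
  exact List.mem_cons.1 hv

lemma pth_len (h : IsPth G S a b l) : 1 ≤ l.length := by
  rw [pth_cons h]
  simp

end paths

/-- regions of disjoint sets of points are disjoint -/
lemma rg_false {V : Type} {G : SimpleGraph V} {K : ℕ} {B : ℕ → ℕ → Set V} (hG : Grid G K B)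
    {T T' : Set (ℕ × ℕ)} (hT : ∀ p ∈ T, p.1 < K ∧ p.2 < K) (hT' : ∀ p ∈ T', p.1 < K ∧ p.2 < K)
    (hd : Disjoint T T') {v : V} (hv : v ∈ Rg B T) (hv' : v ∈ Rg B T') : False := by
  simp only [Rg, Set.mem_iUnion] at hv hv'
  obtain ⟨p, hp, hvp⟩ := hv
  obtain ⟨p', hp', hvp'⟩ := hv'
  have hne : (p.1, p.2) ≠ (p'.1, p'.2) := by
    intro h
    have h2 : p = p' := h
    rw [h2] at hp
    exact Set.disjoint_left.1 hd hp hp'
  have h3 := hG.disj p.1 p.2 p'.1 p'.2 (hT p hp).1 (hT p hp).2 (hT' p' hp').1 (hT' p' hp').2 hne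
  exact Set.disjoint_left.1 h3 hvp hvp'

lemma rg_mem {V : Type} {B : ℕ → ℕ → Set V} {T : Set (ℕ × ℕ)} {v : V} (p : ℕ × ℕ) (hp : p ∈ T)
    (hv : v ∈ B p.1 p.2) : v ∈ Rg B T := by
  simp only [Rg, Set.mem_iUnion]
  exact ⟨p, hp, hv⟩

lemma rg_union {V : Type} {B : ℕ → ℕ → Set V} {T T' : Set (ℕ × ℕ)} {v : V} :
    v ∈ Rg B (T ∪ T') ↔ v ∈ Rg B T ∨ v ∈ Rg B T' := by
  simp only [Rg, Set.mem_iUnion, Set.mem_union]
  constructor
  · rintro ⟨p, hp | hp, h⟩
    · exact Or.inl ⟨p, hp, h⟩
    · exact Or.inr ⟨p, hp, h⟩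
  · rintro (⟨p, hp, h⟩ | ⟨p, hp, h⟩)
    · exact ⟨p, Or.inl hp, h⟩
    · exact ⟨p, Or.inr hp, h⟩

section points

variable {k L : ℕ} {X Y : ℕ → ℕ}

lemma pos_le (hP : Pos k L X Y) {a b : ℕ} (hab : a ≤ b) (hb : b ≤ 3 * (k * k)) :
    X a ≤ X b ∧ Y a ≤ Y b := by
  rcases Nat.lt_or_eq_of_le hab with h | h
  · have := hP.2.2 a b h hb
    omega
  · rw [h]
    exact ⟨le_rfl, le_rfl⟩

lemma rc_disj (hP : Pos k L X Y) {d d' : ℕ} (hd : d ≤ 3 * (k * k)) (hd' : d' ≤ 3 * (k * k))
    (hne : d ≠ d') : Disjoint (Rc L X Y d) (Rc L X Y d') := by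
  rw [Set.disjoint_left]
  intro p hp hp'
  simp only [Rc, Set.mem_ofPred_eq] at hp hp'
  rcases Nat.lt_or_gt_of_ne hne with h | h
  · have := hP.2.2 d d' h hd'
    omega
  · have := hP.2.2 d' d h hd
    omega

/-- numbers of the two strands of a leg -/
def t1 (o : Bool) : ℕ := if o then 0 else 2
/-- second strand -/
def t2 (o : Bool) : ℕ := if o then 1 else 3
/-- block of a leg -/
def qq (k : ℕ) (o : Bool) (i : ℕ) : ℕ := if o then qv k i else qh k i
/-- number of the next cell -/
def nn (k : ℕ) (o : Bool) (i : ℕ) : ℕ := if o then i + k else i + 1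
/-- points of the middle part of a leg -/
def TT (k L : ℕ) (X Y : ℕ → ℕ) (o : Bool) (i : ℕ) : Set (ℕ × ℕ) :=
  St k L X Y (t1 o) i ∪ St k L X Y (t2 o) i ∪ Rc L X Y (qq k o i)

lemma us1 {o : Bool} {i : ℕ} (h : nn k o i < k * k) : Us k (t1 o) i := by
  cases o
  · simpa [Us, t1, nn] using h
  · simpa [Us, t1, nn] using h

lemma us2 {o : Bool} {i : ℕ} (h : nn k o i < k * k) : Us k (t2 o) i := by
  cases o
  · simpa [Us, t2, nn] using h
  · simpa [Us, t2, nn] using h

lemma t1lt (o : Bool) : t1 o < 4 := by cases o <;> simp [t1]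
lemma t2lt (o : Bool) : t2 o < 4 := by cases o <;> simp [t2]

lemma qq_le (o : Bool) (i : ℕ) : qq k o i ≤ 3 * (k * k) := by
  cases o
  · simp only [qq, qh, Bool.false_eq_true, if_false]; omega
  · simp only [qq, qv, if_true]; omega

lemma nn_gt {o : Bool} {i : ℕ} (h : nn k o i < k * k) : i < nn k o i := by
  cases o
  · simp [nn]
  · simp only [nn, if_true] at h ⊢
    have : 0 < k := by
      rcases Nat.eq_zero_or_pos k with h0 | h0
      · rw [h0] at h
        simp at h
      · exact h0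
    omega

lemma qq_gt {o : Bool} {i : ℕ} (h : nn k o i < k * k) : k * k ≤ qq k o i := by
  have h1 := nn_gt h
  cases o
  · simp only [qq, qh, Bool.false_eq_true, if_false]; omega
  · simp only [qq, qv, if_true]; omega

lemma qq_inj {o o' : Bool} {i i' : ℕ} (h : nn k o i < k * k) (h' : nn k o' i' < k * k)
    (he : qq k o i = qq k o' i') : o = o' ∧ i = i' := by
  have h1 := nn_gt h
  have h2 := nn_gt h'
  cases o <;> cases o' <;> simp only [qq, qh, qv, Bool.false_eq_true, if_false, if_true] at he <;>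
    first
      | (exact ⟨rfl, by omega⟩)
      | (exfalso; omega)

lemma tt_disj (h14 : PE14) (h15 : PE15) (hP : Pos k L X Y) {o o' : Bool} {i i' : ℕ}
    (h : nn k o i < k * k) (h' : nn k o' i' < k * k) (hne : (o, i) ≠ (o', i')) :
    Disjoint (TT k L X Y o i) (TT k L X Y o' i') := by
  have hts : ∀ o o' : Bool, ∀ i i' : ℕ, (o, i) ≠ (o', i') → (t1 o, i) ≠ (t1 o', i') ∧
      (t1 o, i) ≠ (t2 o', i') ∧ (t2 o, i) ≠ (t1 o', i') ∧ (t2 o, i) ≠ (t2 o', i') := by
    intro o o' i i' hne
    cases o <;> cases o' <;> simp [t1, t2] at hne ⊢ <;> exact hne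
  obtain ⟨n1, n2, n3, n4⟩ := hts o o' i i' hne
  have e14 := h14 k L X Y hP
  have e15 := h15 k L X Y hP
  have hq := qq_le (k := k) o i
  have hq' := qq_le (k := k) o' i'
  have hqn : qq k o i ≠ qq k o' i' := by
    intro he
    obtain ⟨rfl, rfl⟩ := qq_inj h h' he
    exact hne rfl
  rw [Set.disjoint_left]
  intro p hp hp'
  simp only [TT, Set.mem_union] at hp hp'
  rcases hp with (hp | hp) | hp <;> rcases hp' with (hp' | hp') | hp'
  · exact Set.disjoint_left.1 (e14 _ _ _ _ (t1lt o) (t1lt o') (us1 h) (us1 h') n1) hp hp'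
  · exact Set.disjoint_left.1 (e14 _ _ _ _ (t1lt o) (t2lt o') (us1 h) (us2 h') n2) hp hp'
  · exact Set.disjoint_left.1 (e15 _ _ _ (t1lt o) (us1 h) hq') hp hp'
  · exact Set.disjoint_left.1 (e14 _ _ _ _ (t2lt o) (t1lt o') (us2 h) (us1 h') n3) hp hp'
  · exact Set.disjoint_left.1 (e14 _ _ _ _ (t2lt o) (t2lt o') (us2 h) (us2 h') n4) hp hp'
  · exact Set.disjoint_left.1 (e15 _ _ _ (t2lt o) (us2 h) hq') hp hp'
  · exact Set.disjoint_left.1 (e15 _ _ _ (t1lt o') (us1 h') hq) hp' hp
  · exact Set.disjoint_left.1 (e15 _ _ _ (t2lt o') (us2 h') hq) hp' hp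
  · exact Set.disjoint_left.1 (rc_disj hP hq hq' hqn) hp hp'

lemma tt_rc (h15 : PE15) (hP : Pos k L X Y) {o : Bool} {i : ℕ} (h : nn k o i < k * k) {c : ℕ}
    (hc : c < k * k) : Disjoint (TT k L X Y o i) (Rc L X Y c) := by
  have e15 := h15 k L X Y hP
  have hq := qq_le (k := k) o i
  have hg := qq_gt h
  rw [Set.disjoint_left]
  intro p hp hp'
  simp only [TT, Set.mem_union] at hp
  rcases hp with (hp | hp) | hp
  · exact Set.disjoint_left.1 (e15 _ _ _ (t1lt o) (us1 h) (by omega)) hp hp'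
  · exact Set.disjoint_left.1 (e15 _ _ _ (t2lt o) (us2 h) (by omega)) hp hp'
  · exact Set.disjoint_left.1 (rc_disj hP hq (by omega) (by omega)) hp hp'

end points

section blocks

variable {V : Type} {G : SimpleGraph V} {K : ℕ} {B : ℕ → ℕ → Set V} {k L : ℕ} {X Y : ℕ → ℕ}
  {e : ℕ → ℕ → V} {μ : ℕ → ℕ}

lemma rc_bd (hB : Blocks G K B k L X Y e μ) {d : ℕ} (hd : d ≤ 3 * (k * k)) :
    ∀ p ∈ Rc L X Y d, p.1 < K ∧ p.2 < K := by
  intro p hp
  simp only [Rc, Set.mem_ofPred_eq] at hp
  have h1 := pos_le hB.pos hd le_rfl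
  have h2 := hB.bdX
  have h3 := hB.bdY
  omega

lemma st_bd (hB : Blocks G K B k L X Y e μ) {t i : ℕ} (ht : t < 4) (hu : Us k t i) :
    ∀ p ∈ St k L X Y t i, p.1 < K ∧ p.2 < K := by
  intro p hp
  have h2 := hB.bdX
  have h3 := hB.bdY
  have hqv : qv k i ≤ 3 * (k * k) := by simp only [qv]; omega
  have hqh : qh k i ≤ 3 * (k * k) := by simp only [qh]; omega
  have h4 := pos_le hB.pos hqv le_rfl
  have h5 := pos_le hB.pos hqh le_rfl
  have ht' : t = 0 ∨ t = 1 ∨ t = 2 ∨ t = 3 := by omega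
  rcases ht' with rfl | rfl | rfl | rfl
  · have hu' : i + k < k * k := by simpa [Us] using hu
    have h6 := pos_le hB.pos (show i ≤ 3 * (k * k) by omega) le_rfl
    simp only [St, if_true, S1, vs, hs, Set.mem_union, Set.mem_ofPred_eq] at hp
    omega
  · have hu' : i + k < k * k := by simpa [Us] using hu
    have h6 := pos_le hB.pos (show i + k ≤ 3 * (k * k) by omega) le_rfl
    simp only [St, one_ne_zero, if_false, if_true, S2, vs, hs, Set.mem_union,
      Set.mem_ofPred_eq] at hp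
    omega
  · have hu' : i + 1 < k * k := by simpa [Us] using hu
    have h6 := pos_le hB.pos (show i ≤ 3 * (k * k) by omega) le_rfl
    simp only [St, OfNat.ofNat_ne_zero, OfNat.ofNat_ne_one, if_false, if_true, S3, vs, hs,
      Set.mem_union, Set.mem_ofPred_eq] at hp
    omega
  · have hu' : i + 1 < k * k := by simpa [Us] using hu
    have h6 := pos_le hB.pos (show i + 1 ≤ 3 * (k * k) by omega) le_rfl
    have h32 : (3 : ℕ) ≠ 2 := by norm_num
    simp only [St, OfNat.ofNat_ne_zero, OfNat.ofNat_ne_one, h32, if_false, S4, vs, hs,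
      Set.mem_union, Set.mem_ofPred_eq] at hp
    omega

lemma tt_bd (hB : Blocks G K B k L X Y e μ) {o : Bool} {i : ℕ} (h : nn k o i < k * k) :
    ∀ p ∈ TT k L X Y o i, p.1 < K ∧ p.2 < K := by
  intro p hp
  simp only [TT, Set.mem_union] at hp
  rcases hp with (hp | hp) | hp
  · exact st_bd hB (t1lt o) (us1 h) p hp
  · exact st_bd hB (t2lt o) (us2 h) p hp
  · exact rc_bd hB (qq_le o i) p hp

/-- the first end of a leg lies in its region -/
lemma end1 (hB : Blocks G K B k L X Y e μ) {o : Bool} {i : ℕ} (h : nn k o i < k * k) :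
    e i (ro o) ∈ Rg B (TT k L X Y o i) := by
  have hi := nn_gt h
  have hqg := qq_gt h
  have hql := qq_le (k := k) o i
  have hX := pos_le hB.pos (show i ≤ qq k o i by omega) hql
  cases o
  · have h1 := hB.e0 i (by omega)
    refine rg_mem (X i + L + 1, Y i + 1) ?_ h1
    simp only [qq, Bool.false_eq_true, if_false] at hX
    refine Or.inl (Or.inl ?_)
    simp only [t1, Bool.false_eq_true, if_false, St, OfNat.ofNat_ne_zero, OfNat.ofNat_ne_one,
      if_true, S3, vs, hs, Set.mem_union, Set.mem_ofPred_eq, true_and, and_true, le_refl]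
    omega
  · have h1 := hB.e2 i (by omega)
    refine rg_mem (X i - 1, Y i + 1) ?_ h1
    simp only [qq, if_true] at hX
    refine Or.inl (Or.inl ?_)
    simp only [t1, if_true, St, S1, vs, hs, Set.mem_union, Set.mem_ofPred_eq, true_and, and_true, le_refl]
    omega

/-- the second end of a leg lies in its region -/
lemma end2 (hB : Blocks G K B k L X Y e μ) {o : Bool} {i : ℕ} (h : nn k o i < k * k) :
    e (nn k o i) (ri o) ∈ Rg B (TT k L X Y o i) := by
  have hi := nn_gt h
  have hqg := qq_gt h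
  have hql := qq_le (k := k) o i
  have hX := pos_le hB.pos (show nn k o i ≤ qq k o i by omega) hql
  have hX0 := (hB.pos).2.2 i (nn k o i) hi (by omega)
  cases o
  · have h1 := hB.e1 (nn k false i) (by omega)
    refine rg_mem (X (nn k false i) - 1, Y (nn k false i)) ?_ h1
    refine Or.inl (Or.inr ?_)
    have h32 : (3 : ℕ) ≠ 2 := by norm_num
    simp only [qq, nn, Bool.false_eq_true, if_false] at hX hX0 ⊢
    simp only [t2, Bool.false_eq_true, if_false, St, OfNat.ofNat_ne_zero, OfNat.ofNat_ne_one,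
      h32, S4, vs, hs, Set.mem_union, Set.mem_ofPred_eq, true_and, and_true, le_refl]
    omega
  · have h1 := hB.e3 (nn k true i) (by omega)
    refine rg_mem (X (nn k true i) + L + 1, Y (nn k true i)) ?_ h1
    refine Or.inl (Or.inr ?_)
    simp only [qq, nn, if_true] at hX hX0 ⊢
    simp only [t2, if_true, St, one_ne_zero, if_false, S2, vs, hs, Set.mem_union,
      Set.mem_ofPred_eq, true_and, and_true, le_refl]
    omega

/-- the middle part of a leg -/
lemma mid (h16 : PE16) (h17 : PE17) (hB : Blocks G K B k L X Y e μ) {o : Bool} {i : ℕ}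
    (h : nn k o i < k * k) : ∃ l, IsPth G (Rg B (TT k L X Y o i)) (e i (ro o))
      (e (nn k o i) (ri o)) l ∧ 4 * μ (qq k o i) ≤ l.length := by
  cases o
  · have h' : i + 1 < k * k := by simpa [nn] using h
    obtain ⟨l, h1, h2⟩ := h17 G K B k L X Y e μ hB i h'
    refine ⟨l, ?_, ?_⟩
    · have e1 : TT k L X Y false i = S3 k L X Y i ∪ S4 k X Y i ∪ Rc L X Y (qh k i) := by
        simp [TT, t1, t2, St, qq]
      have e2 : nn k false i = i + 1 := by simp [nn]
      rw [e1, e2]
      exact h1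
    · have e3 : qq k false i = qh k i := by simp [qq]
      rw [e3]
      exact h2
  · have h' : i + k < k * k := by simpa [nn] using h
    obtain ⟨l, h1, h2⟩ := h16 G K B k L X Y e μ hB i h'
    refine ⟨l, ?_, ?_⟩
    · have e1 : TT k L X Y true i = S1 k X Y i ∪ S2 k L X Y i ∪ Rc L X Y (qv k i) := by
        simp [TT, t1, t2, St, qq]
      have e2 : nn k true i = i + k := by simp [nn]
      rw [e1, e2]
      exact h1
    · have e3 : qq k true i = qv k i := by simp [qq]
      rw [e3]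
      exact h2

end blocks

lemma num_inj {k i j i' j' : ℕ} (hj : j < k) (hj' : j' < k) (h : i * k + j = i' * k + j') :
    i = i' ∧ j = j' := by
  have hk : 0 < k := by omega
  have h1 : (i * k + j) / k = i := by
    rw [mul_comm, Nat.mul_add_div hk, Nat.div_eq_of_lt hj, Nat.add_zero]
  have h2 : (i' * k + j') / k = i' := by
    rw [mul_comm, Nat.mul_add_div hk, Nat.div_eq_of_lt hj', Nat.add_zero]
  have h3 : i = i' := by rw [← h1, ← h2, h]
  subst h3
  exact ⟨rfl, by omega⟩

lemma num_lt {k i j : ℕ} (hi : i < k) (hj : j < k) : i * k + j < k * k := by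
  have : (i + 1) * k ≤ k * k := Nat.mul_le_mul_right k hi
  have h2 : (i + 1) * k = i * k + k := by ring
  omega

lemma num_nx (k : ℕ) (o : Bool) (i j : ℕ) :
    (nx o i j).1 * k + (nx o i j).2 = nn k o (i * k + j) := by
  cases o
  · simp only [nx, nn, Bool.false_eq_true, if_false]; omega
  · simp only [nx, nn, if_true]; ring

lemma d_lt (o : Bool) : ro o < 4 ∧ ri o < 4 := by cases o <;> simp [ro, ri]

end ItE20

open ItE20 in
theorem E20 (h12 : PE12) (h14 : PE14) (h15 : PE15) (h16 : PE16) (h17 : PE17) (h18 : PE18)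
    (h19 : PE19) : PE20 := by
  intro V G K B k L X Y e μ hB
  haveI : Nonempty V := ⟨e 0 0⟩
  have hP := hB.pos
  have hG := hB.grid
  -- the cells
  have hcell : ∀ i, i < k * k → ∀ F : Finset ℕ, F.card < k * k →
      ∃ x : List V × (ℕ → List V), (IsCell G (Rg B (Rc L X Y i)) (e i) x.1 x.2 ∧
        4 ≤ x.1.length ∧ x.1.length ≤ μ i) ∧ x.1.length ∉ F := by
    intro i hi F hF
    obtain ⟨Z, w, h1, h2, h3, h4⟩ := (hB.cap i (by omega)).cell F hF
    exact ⟨(Z, w), ⟨h1, h2, h3⟩, h4⟩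
  obtain ⟨c, hc1, hc2⟩ := h18 (k * k) (fun i (x : List V × (ℕ → List V)) =>
    IsCell G (Rg B (Rc L X Y i)) (e i) x.1 x.2 ∧ 4 ≤ x.1.length ∧ x.1.length ≤ μ i)
    (fun x => x.1.length) hcell
  -- if there are no cells, choose anything
  rcases Nat.eq_zero_or_pos k with hk0 | hk0
  · subst hk0
    have hEx : ∀ (o : Bool) (i j : ℕ), ¬ Ex 0 o i j := fun o i j h => Nat.not_lt_zero _ h.1
    refine h19 G 0 (fun _ _ => []) (fun _ _ _ => []) (fun _ _ _ => e 0 0) ?_ ?_ ?_ ?_ ?_ ?_ ?_ ?_ ?_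
    · intro i j hi
      exact absurd hi (Nat.not_lt_zero _)
    · intro i j i' j' hi
      exact absurd hi (Nat.not_lt_zero _)
    · intro i j i' j' hi
      exact absurd hi (Nat.not_lt_zero _)
    · intro i j d hi
      exact absurd hi (Nat.not_lt_zero _)
    · intro i j d d' hi
      exact absurd hi (Nat.not_lt_zero _)
    · intro o i j h
      exact absurd h (hEx _ _ _)
    · intro o i j i' j' h
      exact absurd h (hEx _ _ _)
    · intro o i j i' j' h
      exact absurd h (hEx _ _ _)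
    · intro o i j o' i' j' h
      exact absurd h (hEx _ _ _)
  have hVne : Nonempty V := ⟨e 0 0⟩
  -- the roots
  have hroot : ∀ i d, i < k * k → d < 4 → ∃ a ∈ (c i).1,
      IsPth G (Rg B (Rc L X Y i) ∪ {e i d}) a (e i d) ((c i).2 d) :=
    fun i d hi hd => (hc1 i hi).1.pth d hd
  choose! r hr1 hr2 using hroot
  have hmid : ∀ (o : Bool) (i : ℕ), nn k o i < k * k → ∃ l,
      IsPth G (Rg B (TT k L X Y o i)) (e i (ro o)) (e (nn k o i) (ri o)) l ∧
        4 * μ (qq k o i) ≤ l.length := fun o i h => mid h16 h17 hB h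
  choose! m hm1 hm2 using hmid
  -- a vertex of a path of a cell is in the block or an end
  have hw : ∀ i d v, i < k * k → d < 4 → v ∈ (c i).2 d → v ∈ Rg B (Rc L X Y i) ∨ v = e i d := by
    intro i d v hi hd hv
    exact (hr2 i d hi hd).2.2.2.2 v hv
  -- disjointness
  have D1 : ∀ i i' v, i < k * k → i' < k * k → v ∈ Rg B (Rc L X Y i) → v ∈ Rg B (Rc L X Y i') →
      i = i' := by
    intro i i' v hi hi' hv hv'
    by_contra hne
    exact rg_false hG (rc_bd hB (by omega)) (rc_bd hB (by omega))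
      (rc_disj hP (by omega) (by omega) hne) hv hv'
  have D2 : ∀ (o : Bool) i i' v, nn k o i < k * k → i' < k * k → v ∈ Rg B (TT k L X Y o i) →
      v ∈ Rg B (Rc L X Y i') → False := by
    intro o i i' v hi hi' hv hv'
    exact rg_false hG (tt_bd hB hi) (rc_bd hB (by omega)) (tt_rc h15 hP hi hi') hv hv'
  have D3 : ∀ (o o' : Bool) i i' v, nn k o i < k * k → nn k o' i' < k * k →
      v ∈ Rg B (TT k L X Y o i) → v ∈ Rg B (TT k L X Y o' i') → o = o' ∧ i = i' := by
    intro o o' i i' v hi hi' hv hv'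
    by_contra hne
    refine rg_false hG (tt_bd hB hi) (tt_bd hB hi') (tt_disj h14 h15 hP hi hi' ?_) hv hv'
    intro h
    exact hne ⟨congrArg Prod.fst h, congrArg Prod.snd h⟩
  -- the legs
  obtain ⟨lam, hlam⟩ : ∃ lam : Bool → ℕ → List V, lam = fun o i =>
      ((c i).2 (ro o) ++ (m o i).tail) ++ (((c (nn k o i)).2 (ri o)).reverse).tail := ⟨_, rfl⟩
  have hleg : ∀ (o : Bool) (i : ℕ), nn k o i < k * k →
      IsPth G Set.univ (r i (ro o)) (r (nn k o i) (ri o)) (lam o i) ∧
      4 * μ (qq k o i) ≤ (lam o i).length ∧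
      ∀ v ∈ lam o i, (v ∈ (c i).2 (ro o) ∧ v ∈ Rg B (Rc L X Y i)) ∨
        (v ∈ (c (nn k o i)).2 (ri o) ∧ v ∈ Rg B (Rc L X Y (nn k o i))) ∨
        v ∈ Rg B (TT k L X Y o i) := by
    intro o i h
    have hi := nn_gt h
    have hi' : i < k * k := by omega
    have p1 := hr2 i (ro o) hi' (d_lt o).1
    have p2 := hm1 o i h
    have p3 := pth_rev (hr2 (nn k o i) (ri o) h (d_lt o).2)
    have E1 := end1 hB h
    have E2 := end2 hB h
    obtain ⟨q1, q2⟩ := h12 G _ _ _ _ _ _ _ p1 p2 (by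
      intro x hx hx'
      rcases hw i (ro o) x hi' (d_lt o).1 hx with h1 | h1
      · exact (D2 o i i x h hi' (p2.2.2.2.2 x hx') h1).elim
      · exact h1)
    obtain ⟨q3, q4⟩ := h12 G _ _ _ _ _ _ _ q1 p3 (by
      intro x hx hx'
      rcases hw _ _ x h (d_lt o).2 (List.mem_reverse.1 hx') with h1 | h1
      · exfalso
        rcases (q2 x).1 hx with h2 | h2
        · rcases hw i (ro o) x hi' (d_lt o).1 h2 with h3 | h3
          · have := D1 _ _ x hi' h h3 h1
            omega
          · rw [← h3] at E1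
            exact D2 o i _ x h h E1 h1
        · exact D2 o i _ x h h (p2.2.2.2.2 x h2) h1
      · exact h1)
    rw [hlam]
    refine ⟨pth_univ q3, ?_, ?_⟩
    · have l1 := pth_len p1
      have l3 := pth_len p3
      have l2 := hm2 o i h
      have l4 := pth_len p2
      simp only [List.length_append, List.length_tail]
      omega
    · intro v hv
      rcases (q4 v).1 hv with h1 | h1
      · rcases (q2 v).1 h1 with h2 | h2
        · rcases hw i (ro o) v hi' (d_lt o).1 h2 with h3 | h3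
          · exact Or.inl ⟨h2, h3⟩
          · rw [h3]
            exact Or.inr (Or.inr E1)
        · exact Or.inr (Or.inr (p2.2.2.2.2 v h2))
      · have h2 := List.mem_reverse.1 h1
        rcases hw _ _ v h (d_lt o).2 h2 with h3 | h3
        · exact Or.inr (Or.inl ⟨h2, h3⟩)
        · rw [h3]
          exact Or.inr (Or.inr E2)
  have hnn : ∀ (o : Bool) (i j : ℕ), Ex k o i j → nn k o (i * k + j) < k * k := by
    intro o i j h
    rw [← num_nx]
    exact num_lt h.1 h.2
  have hij : ∀ (o : Bool) (i j : ℕ), Ex k o i j → i < k ∧ j < k := by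
    intro o i j h
    cases o
    · simp only [Ex, nx] at h
      omega
    · simp only [Ex, nx] at h
      omega
  refine h19 G k (fun i j => (c (i * k + j)).1) (fun o i j => lam o (i * k + j))
    (fun i j d => r (i * k + j) d) ?_ ?_ ?_ ?_ ?_ ?_ ?_ ?_ ?_
  · intro i j hi hj
    exact ⟨(hc1 _ (num_lt hi hj)).1.cyc, (hc1 _ (num_lt hi hj)).2.1⟩
  · intro i j i' j' hi hj hi' hj' h
    exact num_inj hj hj' (hc2 _ _ (num_lt hi hj) (num_lt hi' hj') h)
  · intro i j i' j' hi hj hi' hj' hne v hv hv'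
    have h1 := D1 _ _ v (num_lt hi hj) (num_lt hi' hj') ((hc1 _ (num_lt hi hj)).1.zS v hv)
      ((hc1 _ (num_lt hi' hj')).1.zS v hv')
    obtain ⟨rfl, rfl⟩ := num_inj hj hj' h1
    exact hne rfl
  · intro i j d hi hj hd
    exact hr1 _ _ (num_lt hi hj) hd
  · intro i j d d' hi hj hd hd' h
    by_contra hne
    have h1 := pth_head (hr2 _ d (num_lt hi hj) hd)
    have h2 := pth_head (hr2 _ d' (num_lt hi hj) hd')
    rw [h] at h1
    exact (hc1 _ (num_lt hi hj)).1.dis d d' hd hd' hne h1 h2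
  · intro o i j h
    have h1 := (hleg o _ (hnn o i j h)).1
    rw [num_nx]
    exact h1
  · intro o i j i' j' h hi' hj'
    have h1 := (hleg o _ (hnn o i j h)).2.1
    have h2 := (hc1 _ (num_lt hi' hj')).2
    have h3 := hB.mono (i' * k + j') (qq k o (i * k + j)) (by
      have h4 := qq_gt (hnn o i j h)
      have h5 := num_lt hi' hj'
      omega) (qq_le o _)
    omega
  · intro o i j i' j' h hi' hj' v hv hv'
    have hn := hnn o i j h
    have hi := nn_gt hn
    have hZ := (hc1 _ (num_lt hi' hj')).1.zS v hv'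
    rcases (hleg o _ hn).2.2 v hv with h1 | h1 | h1
    · left
      have h2 := D1 _ _ v (by omega) (num_lt hi' hj') h1.2 hZ
      rw [← h2] at hv'
      have h3 := (hc1 (i * k + j) (by omega)).1
      rcases pth_mem (hr2 _ (ro o) (by omega) (d_lt o).1) h1.1 with h4 | h4
      · exact h4
      · exact (h3.off (ro o) (d_lt o).1 v h4 hv').elim
    · right
      rw [num_nx]
      have h2 := D1 _ _ v hn (num_lt hi' hj') h1.2 hZ
      rw [← h2] at hv'
      have h3 := (hc1 _ hn).1
      rcases pth_mem (hr2 _ (ri o) hn (d_lt o).2) h1.1 with h4 | h4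
      · exact h4
      · exact (h3.off (ri o) (d_lt o).2 v h4 hv').elim
    · exact (D2 o _ _ v hn (num_lt hi' hj') h1 hZ).elim
  · intro o i j o' i' j' h h' hne v hv hv'
    have hn := hnn o i j h
    have hn' := hnn o' i' j' h'
    have hi := nn_gt hn
    have hi' := nn_gt hn'
    have key : o = o' ∧ i * k + j = i' * k + j' → False := by
      rintro ⟨rfl, h2⟩
      obtain ⟨rfl, rfl⟩ := num_inj (hij _ _ _ h).2 (hij _ _ _ h').2 h2
      exact hne rfl
    have wd : ∀ a d d', a < k * k → d < 4 → d' < 4 → v ∈ (c a).2 d → v ∈ (c a).2 d' → d = d' := by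
      intro a d d' ha hd hd' hv1 hv2
      by_contra hdd
      exact (hc1 a ha).1.dis d d' hd hd' hdd hv1 hv2
    rcases (hleg o _ hn).2.2 v hv with h1 | h1 | h1 <;>
      rcases (hleg o' _ hn').2.2 v hv' with h2 | h2 | h2
    · have h3 := D1 _ _ v (by omega) (by omega) h1.2 h2.2
      have h4 := wd _ _ _ (by omega) (d_lt o).1 (d_lt o').1 h1.1 (by rw [h3]; exact h2.1)
      apply key
      refine ⟨?_, h3⟩
      cases o <;> cases o' <;> simp [ro] at h4 ⊢
    · have h3 := D1 _ _ v (by omega) (by omega) h1.2 h2.2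
      have h4 := wd _ _ _ (by omega) (d_lt o).1 (d_lt o').2 h1.1 (by rw [h3]; exact h2.1)
      cases o <;> cases o' <;> simp [ro, ri] at h4
    · exact (D2 o' _ _ v hn' (by omega) h2 h1.2).elim
    · have h3 := D1 _ _ v (by omega) (by omega) h1.2 h2.2
      have h4 := wd _ _ _ (by omega) (d_lt o).2 (d_lt o').1 h1.1 (by rw [h3]; exact h2.1)
      cases o <;> cases o' <;> simp [ro, ri] at h4
    · have h3 := D1 _ _ v (by omega) (by omega) h1.2 h2.2
      have h4 := wd _ _ _ (by omega) (d_lt o).2 (d_lt o').2 h1.1 (by rw [h3]; exact h2.1)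
      have h5 : o = o' := by
        cases o <;> cases o' <;> simp [ri] at h4 ⊢
      subst h5
      apply key
      refine ⟨rfl, ?_⟩
      cases o
      · simp only [nn, Bool.false_eq_true, if_false] at h3
        omega
      · simp only [nn, if_true] at h3
        omega
    · exact (D2 o' _ _ v hn' (by omega) h2 h1.2).elim
    · exact (D2 o _ _ v hn (by omega) h1 h2.2).elim
    · exact (D2 o _ _ v hn (by omega) h1 h2.2).elim
    · exact key (D3 _ _ _ _ v hn hn' h1 h2)

end Pool.Agent.PEmb
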