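import Pool.Agent.Work.MP_cfa43e_lc.Stmts

/-!
# E4: a long path in a ladder
-/

set_option autoImplicit false

namespace Pool.Agent.PEmb

namespace IE4

variable {V : Type}

/-- The way through a column: `true` is above, `false` is below. -/
def seg (c : Col V) : Bool → Bool → List V
  | true, true => c.pm ++ c.a :: c.pp
  | false, false => c.qm ++ c.b :: c.qp
  | true, false => c.pm ++ c.a :: (c.rh ++ c.b :: c.qp)
  | false, true => c.qm ++ c.b :: (c.rh.reverse ++ c.a :: c.pp)

def side (c : Col V) : Bool → List V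
  | true => c.P
  | false => c.Q

theorem seg_head (c : Col V) (s t : Bool) : (seg c s t).head? = (side c s).head? := by
  cases s <;> cases t <;> simp [seg, side, Col.P, Col.Q]

theorem seg_last (c : Col V) (s t : Bool) : (seg c s t).getLast? = (side c t).getLast? := by
  cases s <;> cases t <;> simp [seg, side, Col.P, Col.Q, List.getLast?_append, List.getLast?_cons]

theorem seg_nodup (c : Col V) (s t : Bool) (h : (c.P ++ c.Q ++ c.rh).Nodup) :
    (seg c s t).Nodup := by
  classical
  rw [List.nodup_iff_count_le_one] at h ⊢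
  intro v
  refine le_trans ?_ (h v)
  cases s <;> cases t <;>
    simp only [seg, Col.P, Col.Q, List.count_append, List.count_cons, List.count_reverse] <;>
    omega

theorem seg_mem (c : Col V) (s t : Bool) (v : V) (h : v ∈ seg c s t) :
    v ∈ c.P ++ c.Q ++ c.rh := by
  cases s <;> cases t <;> simp only [seg, Col.P, Col.Q, List.mem_append, List.mem_cons,
    List.mem_reverse] at h ⊢ <;> tauto

theorem seg_chain (G : SimpleGraph V) (c : Col V) (s t : Bool) (h1 : c.P.IsChain G.Adj)
    (h2 : c.Q.IsChain G.Adj) (h3 : (c.a :: c.rh ++ [c.b]).IsChain G.Adj) :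
    (seg c s t).IsChain G.Adj := by
  unfold Col.P at h1
  unfold Col.Q at h2
  have h4 : (c.b :: (c.rh.reverse ++ [c.a])).IsChain G.Adj := by
    have : (c.a :: c.rh ++ [c.b]).reverse.IsChain G.Adj := by
      rw [List.isChain_reverse]
      have e : (fun a b => G.Adj b a) = G.Adj := by
        funext x y
        exact propext ⟨fun h => h.symm, fun h => h.symm⟩
      rw [e]
      exact h3
    simpa using this
  rw [List.isChain_split] at h1 h2
  cases s <;> cases t
  · exact List.isChain_split.2 h2
  · refine List.isChain_split.2 ⟨h2.1, ?_⟩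
    have := List.isChain_split (R := G.Adj) (l₁ := c.b :: c.rh.reverse) (c := c.a) (l₂ := c.pp)
    exact this.2 ⟨h4, h1.2⟩
  · refine List.isChain_split.2 ⟨h1.1, ?_⟩
    have := List.isChain_split (R := G.Adj) (l₁ := c.a :: c.rh) (c := c.b) (l₂ := c.qp)
    exact this.2 ⟨h3, h2.2⟩
  · exact List.isChain_split.2 h1

/-- The way through the columns `0, ..., n`. -/
def W (c : ℕ → Col V) (s : ℕ → Bool) : ℕ → List V
  | 0 => seg (c 0) (s 0) (s 1)
  | n + 1 => W c s n ++ seg (c (n + 1)) (s (n + 1)) (s (n + 2))

theorem side_ne (c : Col V) (s : Bool) : side c s ≠ [] := by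
  cases s <;> simp [side, Col.P, Col.Q]

theorem seg_ne (c : Col V) (s t : Bool) : seg c s t ≠ [] := by
  cases s <;> cases t <;> simp [seg]

theorem W_ne (c : ℕ → Col V) (s : ℕ → Bool) (n : ℕ) : W c s n ≠ [] := by
  cases n with
  | zero => exact seg_ne _ _ _
  | succ n => simp [W, seg_ne]

theorem W_head (c : ℕ → Col V) (s : ℕ → Bool) (n : ℕ) :
    (W c s n).head? = (side (c 0) (s 0)).head? := by
  induction n with
  | zero => exact seg_head _ _ _
  | succ n ih =>
    rw [W, List.head?_append_of_ne_nil _ (W_ne c s n), ih]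

theorem W_last (c : ℕ → Col V) (s : ℕ → Bool) (n : ℕ) :
    (W c s n).getLast? = (side (c n) (s (n + 1))).getLast? := by
  cases n with
  | zero => exact seg_last _ _ _
  | succ n =>
    rw [W, List.getLast?_append_of_ne_nil _ (seg_ne _ _ _), seg_last]

theorem W_mem (c : ℕ → Col V) (s : ℕ → Bool) (n : ℕ) (v : V) (h : v ∈ W c s n) :
    ∃ x, x ≤ n ∧ v ∈ (c x).P ++ (c x).Q ++ (c x).rh := by
  induction n with
  | zero => exact ⟨0, le_refl _, seg_mem _ _ _ _ h⟩
  | succ n ih =>
    rw [W, List.mem_append] at h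
    rcases h with h | h
    · obtain ⟨x, hx, hv⟩ := ih h
      exact ⟨x, by omega, hv⟩
    · exact ⟨n + 1, le_refl _, seg_mem _ _ _ _ h⟩

theorem W_length (c : ℕ → Col V) (s : ℕ → Bool) (n : ℕ) :
    (W c s n).length = ∑ x ∈ Finset.range (n + 1), (seg (c x) (s x) (s (x + 1))).length := by
  induction n with
  | zero => simp [W]
  | succ n ih => rw [W, List.length_append, ih, Finset.sum_range_succ _ (n + 1)]

section
variable {G : SimpleGraph V} {L : ℕ} {D : ℕ → Set V} {c : ℕ → Col V} {e : ℕ → V}

theorem W_chain (h : IsLad G L D c e) (s : ℕ → Bool) (n : ℕ) (hn : n ≤ L) :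
    (W c s n).IsChain G.Adj := by
  induction n with
  | zero => exact seg_chain G _ _ _ (h.chP 0 hn) (h.chQ 0 hn) (h.chR 0 hn)
  | succ n ih =>
    rw [W, List.isChain_append]
    refine ⟨ih (by omega), seg_chain G _ _ _ (h.chP _ hn) (h.chQ _ hn) (h.chR _ hn), ?_⟩
    rw [W_last, seg_head]
    cases hs : s (n + 1)
    · exact h.linkQ n (by omega)
    · exact h.linkP n (by omega)

theorem W_nodup (h : IsLad G L D c e) (s : ℕ → Bool) (n : ℕ) (hn : n ≤ L) :
    (W c s n).Nodup := by
  induction n with
  | zero => exact seg_nodup _ _ _ (h.nd 0 hn)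
  | succ n ih =>
    rw [W, List.nodup_append]
    refine ⟨ih (by omega), seg_nodup _ _ _ (h.nd _ hn), ?_⟩
    intro v hv w hw hvw
    subst hvw
    obtain ⟨x, hx, hxv⟩ := W_mem c s n v hv
    have h1 := h.mem x (by omega) v hxv
    have h2 := h.mem (n + 1) hn v (seg_mem _ _ _ _ hw)
    exact Set.disjoint_left.1 (h.dis x (n + 1) (by omega) hn (by omega)) h1 h2

theorem pth (h : IsLad G L D c e) (s : ℕ → Bool) (a b : ℕ) (ha : a = 1 ∨ a = 2)
    (hb : b = 0 ∨ b = 3) (hsa : s 0 = decide (a = 2)) (hsb : s (L + 1) = decide (b = 0)) :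
    IsPth G ((⋃ x ∈ Set.Iic L, D x) ∪ {e a, e b}) (e a) (e b) (e a :: (W c s L ++ [e b])) := by
  have hWD : ∀ v ∈ W c s L, ∃ x, x ≤ L ∧ v ∈ D x := by
    intro v hv
    obtain ⟨x, hx, hxv⟩ := W_mem c s L v hv
    exact ⟨x, hx, h.mem x hx v hxv⟩
  have ha4 : a < 4 := by omega
  have hb4 : b < 4 := by omega
  have hea : e a ∉ W c s L := fun hv => by
    obtain ⟨x, hx, hxv⟩ := hWD _ hv
    exact h.enD a ha4 x hx hxv
  have heb : e b ∉ W c s L := fun hv => by
    obtain ⟨x, hx, hxv⟩ := hWD _ hv
    exact h.enD b hb4 x hx hxv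
  have hab : e a ≠ e b := fun hv => by
    have := h.einj a b ha4 hb4 hv
    omega
  refine ⟨?_, ?_, ?_, ?_, ?_⟩
  · have h1 : (W c s L ++ [e b]).IsChain G.Adj := by
      rw [List.isChain_append]
      refine ⟨W_chain h s L (le_refl _), List.isChain_singleton _, ?_⟩
      rw [W_last, hsb]
      intro x hx y hy
      simp only [List.head?_cons, Option.mem_def, Option.some.injEq] at hy
      subst hy
      rcases hb with rfl | rfl
      · exact h.adj0 x (by simpa [side] using hx)
      · exact h.adj3 x (by simpa [side] using hx)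
    rw [List.isChain_cons]
    refine ⟨?_, h1⟩
    rw [List.head?_append_of_ne_nil _ (W_ne c s L), W_head, hsa]
    intro y hy
    rcases ha with rfl | rfl
    · exact h.adj1 y (by simpa [side] using hy)
    · exact h.adj2 y (by simpa [side] using hy)
  · rw [List.nodup_cons, List.nodup_append]
    refine ⟨?_, W_nodup h s L (le_refl _), by simp, ?_⟩
    · simp only [List.mem_append, List.mem_singleton, not_or]
      exact ⟨hea, hab⟩
    · intro v hv w hw hvw
      rw [List.mem_singleton] at hw
      subst hvw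
      rw [hw] at hv
      exact heb hv
  · simp
  · have : e a :: (W c s L ++ [e b]) = (e a :: W c s L) ++ [e b] := rfl
    rw [this, List.getLast?_append]
    simp
  · intro x hx
    simp only [List.mem_cons, List.mem_append, List.not_mem_nil, or_false] at hx
    rcases hx with rfl | hx | rfl
    · right; simp
    · left
      obtain ⟨y, hy, hxy⟩ := hWD _ hx
      exact Set.mem_biUnion (by exact hy) hxy
    · right; simp

end

/-- The alternating sequence of sides. -/
def alt (A B : Bool) (L : ℕ) (t : ℕ → Bool) (x : ℕ) : Bool :=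
  if x = 0 then A else if x ≤ L then t x else B

theorem seg_two (c : ℕ → Col V) (L : ℕ) (hL : 1 ≤ L) (A B : Bool) (t : ℕ → Bool)
    (ht : ∀ x, t (x + 1) = !(t x)) (x : ℕ) (hx : x ≤ L) :
    (if x < L then (c x).pp.length + (c x).qp.length + 2 else 0) +
      (if 0 < x then (c x).pm.length + (c x).qm.length else 0) + ((c x).rh.length + 1) ≤
    (seg (c x) (alt A B L t x) (alt A B L t (x + 1))).length +
    (seg (c x) (alt A B L (fun y => !(t y)) x) (alt A B L (fun y => !(t y)) (x + 1))).length := by
  have hl : ∀ s s' : Bool, (seg (c x) s s').length =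
      (if s then (c x).pm.length else (c x).qm.length) + 1 +
      (if s = s' then 0 else (c x).rh.length + 1) +
      (if s' then (c x).pp.length else (c x).qp.length) := by
    intro s s'
    cases s <;> cases s' <;> simp [seg] <;> omega
  rw [hl, hl]
  have h2 := ht x
  unfold alt
  rcases Nat.eq_zero_or_pos x with rfl | hx0
  · have : (0 : ℕ) + 1 ≤ L := by omega
    have h3 : (0 : ℕ) < L := by omega
    cases A <;> cases h4 : t (0 + 1) <;> simp [this, h3, h4] <;> omega
  · rcases Nat.lt_or_ge x L with hxL | hxL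
    · have h3 : x + 1 ≤ L := by omega
      have h4 : x ≠ 0 := by omega
      cases h5 : t x <;> simp [h3, h4, hx, hx0, hxL, h2, h5] <;> omega
    · have h3 : ¬ (x + 1 ≤ L) := by omega
      have h4 : x ≠ 0 := by omega
      have h6 : ¬ (x < L) := by omega
      cases B <;> cases h5 : t x <;> simp [h3, h4, hx, hx0, h6, h5] <;> omega

theorem sums (c : ℕ → Col V) (L : ℕ) (hL : 1 ≤ L) (A B : Bool) (t : ℕ → Bool)
    (ht : ∀ x, t (x + 1) = !(t x)) :
    (∑ x ∈ Finset.range L, (tl c x + bl c x)) + (∑ x ∈ Finset.range (L + 1), sl c x) ≤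
      (W c (alt A B L t) L).length + (W c (alt A B L (fun y => !(t y))) L).length := by
  rw [W_length, W_length, ← Finset.sum_add_distrib]
  refine le_trans (le_of_eq ?_) (Finset.sum_le_sum fun x hx =>
    seg_two c L hL A B t ht x (by rw [Finset.mem_range] at hx; omega))
  conv_rhs => rw [Finset.sum_add_distrib]
  congr 1
  conv_rhs => rw [Finset.sum_add_distrib, Finset.sum_range_succ, Finset.sum_range_succ']
  simp only [lt_irrefl, if_false, add_zero, Nat.succ_pos, if_true]
  rw [← Finset.sum_add_distrib]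
  refine Finset.sum_congr rfl fun x hx => ?_
  rw [Finset.mem_range] at hx
  unfold tl bl
  simp [hx]
  omega

end IE4

theorem E4 : PE4 := by
  intro V G L D c e h hL a b ha hb
  obtain ⟨t, ht⟩ : ∃ t : ℕ → Bool, ∀ x, t (x + 1) = !(t x) :=
    ⟨fun x => decide (x % 2 = 0), fun x => by
      rcases Nat.mod_two_eq_zero_or_one x with hx | hx
      · have : (x + 1) % 2 = 1 := by omega
        simp [hx, this]
      · have : (x + 1) % 2 = 0 := by omega
        simp [hx, this]⟩
  have hs := IE4.sums c L hL (decide (a = 2)) (decide (b = 0)) t ht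
  have h1 := IE4.pth h (IE4.alt (decide (a = 2)) (decide (b = 0)) L t) a b ha hb
    (by simp [IE4.alt]) (by simp [IE4.alt])
  have h2 := IE4.pth h (IE4.alt (decide (a = 2)) (decide (b = 0)) L (fun y => !(t y))) a b ha hb
    (by simp [IE4.alt]) (by simp [IE4.alt])
  rcases Nat.le_total
    (IE4.W c (IE4.alt (decide (a = 2)) (decide (b = 0)) L t) L).length
    (IE4.W c (IE4.alt (decide (a = 2)) (decide (b = 0)) L (fun y => !(t y))) L).length
    with h3 | h3
  · refine ⟨_, h2, ?_⟩
    simp only [List.length_cons, List.length_append, List.length_nil]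
    omega
  · refine ⟨_, h1, ?_⟩
    simp only [List.length_cons, List.length_append, List.length_nil]
    omega

end Pool.Agent.PEmb
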