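import Pool.Agent.Work.MP_cfa43e_lc.Bd.B02

set_option autoImplicit false

namespace Pool.Agent.PEmb

namespace IQ10

/-- decoding of labels -/
def dec : LC → Lab
  | (0, i, j, s) => .core i j s
  | (1, i, j, s) => .leg false i j s
  | (_, i, j, s) => .leg true i j s

theorem dec_labC (y : Lab) : dec (labC y) = y := by
  rcases y with ⟨i, j, s⟩ | ⟨_ | _, i, j, s⟩ <;> rfl

/-- the three bits of a zone -/
def zb : Zone → List Bool
  | .cell i j => [false, false, decide (i = j)]
  | .port o => [true, o, false]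

theorem zrow_labC (k : ℕ) (t : List (List ℕ)) (y : Lab) :
    zrow k t (labC y) = zb (zone (parOf k t) y) := by
  rcases y with ⟨i, j, s⟩ | ⟨_ | _, i, j, s⟩
  · rfl
  · have h1 : zrow k t (1, i, j, s) =
        if s < (parOf k t).l false i j / 2 then [false, false, decide (i = j)]
        else if s = (parOf k t).l false i j / 2 then [true, false, false]
        else [false, false, decide (i = j + 1)] := by simp [zrow]
    show zrow k t (1, i, j, s) = _
    rw [h1]
    simp only [zone]
    split_ifs <;> rfl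
  · have h1 : zrow k t (2, i, j, s) =
        if s < (parOf k t).l true i j / 2 then [false, false, decide (i = j)]
        else if s = (parOf k t).l true i j / 2 then [true, true, false]
        else [false, false, decide (i + 1 = j)] := by simp [zrow]
    show zrow k t (2, i, j, s) = _
    rw [h1]
    simp only [zone]
    split_ifs <;> rfl

theorem okB_iff (G : Code) (Z : Zone) (u v : Fin G.length) :
    okB G (zb Z) u v = true ↔ OKv (graph G) Z (u, v) := by
  cases Z with
  | cell i j =>
    by_cases h : i = j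
    · simp [okB, zb, OKv, h, Fin.ext_iff]
    · simp [okB, zb, OKv, h, adjB, graph, Fin.ext_iff]
  | port o => simp [okB, zb, OKv, Fin.ext_iff]

theorem compB_iff {n : ℕ} (Z Z' : Zone) (u v u' v' : Fin n) :
    compB (zb Z) (zb Z') u v u' v' = true ↔ Comp Z Z' (u, v) (u', v') := by
  rcases Z with ⟨i, j⟩ | ⟨_ | _⟩ <;> rcases Z' with ⟨i', j'⟩ | ⟨_ | _⟩ <;>
    simp [compB, zb, Comp, Fin.ext_iff]

theorem Comp_symm {V : Type} (Z Z' : Zone) (p q : V × V) (h : Comp Z Z' p q) : Comp Z' Z q p := by
  rcases Z with ⟨i, j⟩ | ⟨_ | _⟩ <;> rcases Z' with ⟨i', j'⟩ | ⟨_ | _⟩ <;>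
    simp only [Comp] at h ⊢ <;> exact h.symm

theorem HAdj_symm {V : Type} {k : ℕ} {P : Par} {G : SimpleGraph V} {p q : Lab × (V × V)}
    (h : HAdj k P G p q) : HAdj k P G q p :=
  ⟨h.1.symm, h.2.2.1, h.2.1, Comp_symm _ _ _ _ h.2.2.2⟩

theorem AE_ne {k : ℕ} {P : Par} (hA : Adm k P) {x y : Lab} (h : AE k P x y) : x ≠ y := by
  cases h with
  | cyc i j s hi hj hs => intro e; simp at e
  | close i j hi hj =>
    intro e
    have := hA.z4 i j hi hj
    simp at e
    omega
  | out o i j h => intro e; cases e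
  | step o i j s h hs hl => intro e; simp at e
  | inn o i j h => intro e; cases e

theorem Ex_lt {k : ℕ} {o : Bool} {i j : ℕ} (h : Ex k o i j) : i < k ∧ j < k := by
  unfold Ex at h
  cases o <;> simp only [nx] at h <;> omega

theorem ro_lt (o : Bool) : ro o < 4 := by cases o <;> decide
theorem ri_lt (o : Bool) : ri o < 4 := by cases o <;> decide

theorem AE_vx {k : ℕ} {P : Par} (hA : Adm k P) {x y : Lab} (h : AE k P x y) :
    Vx k P x ∧ Vx k P y := by
  cases h with
  | cyc i j s hi hj hs => exact ⟨⟨hi, hj, by omega⟩, ⟨hi, hj, hs⟩⟩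
  | close i j hi hj =>
    have := hA.z4 i j hi hj
    exact ⟨⟨hi, hj, by omega⟩, ⟨hi, hj, by omega⟩⟩
  | out o i j h =>
    obtain ⟨hi, hj⟩ := Ex_lt h
    have := hA.lbig o i j i j h hi hj
    exact ⟨⟨hi, hj, hA.rlt i j _ hi hj (ro_lt o)⟩, ⟨h, le_refl _, by omega⟩⟩
  | step o i j s h hs hl => exact ⟨⟨h, hs, by omega⟩, ⟨h, by omega, hl⟩⟩
  | inn o i j h =>
    obtain ⟨hi, hj⟩ := Ex_lt h
    have := hA.lbig o i j i j h hi hj
    exact ⟨⟨h, by omega, by omega⟩, ⟨h.1, h.2, hA.rlt _ _ _ h.1 h.2 (ri_lt o)⟩⟩

theorem exists_nb {k : ℕ} {P : Par} (x : Lab) (h : Vx k P x) : ∃ y, AE k P x y := by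
  rcases x with ⟨i, j, s⟩ | ⟨o, i, j, s⟩
  · obtain ⟨hi, hj, hs⟩ := h
    by_cases h1 : s + 1 < P.z i j
    · exact ⟨_, AE.cyc i j s hi hj h1⟩
    · have : s = P.z i j - 1 := by omega
      rw [this]
      exact ⟨_, AE.close i j hi hj⟩
  · obtain ⟨hx, h1, hs⟩ := h
    by_cases h2 : s + 1 < P.l o i j
    · exact ⟨_, AE.step o i j s hx h1 h2⟩
    · have : s = P.l o i j - 1 := by omega
      rw [this]
      exact ⟨_, AE.inn o i j hx⟩

section
variable (k : ℕ) (t : List (List ℕ)) (G : Code)

theorem entry_codeA (a b : ℕ) (ha : a < (vl k t).length) (hb : b < (vl k t).length) :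
    entry (codeA k t) a b = decide (AEc k t (vl k t)[a] (vl k t)[b]) := by
  have h1 : (codeA k t).getD a [] =
      (vl k t).map fun y => decide (AEc k t (vl k t)[a] y) := by
    rw [List.getD_eq_getElem _ _ (by rw [length_codeA]; exact ha)]
    simp [codeA]
  unfold entry
  rw [h1, List.getD_eq_getElem _ _ (by simpa using hb), List.getElem_map]

theorem entry_adv (a b : ℕ) (ha : a < (vl k t).length) (hb : b < (vl k t).length) :
    entry (adv k t) a b = decide (AEc k t (vl k t)[a] (vl k t)[b]) := by
  rw [← entry_codeA k t a b ha hb]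
  unfold entry adv
  rw [List.getD_append _ _ _ _ (by rw [length_codeA]; exact ha)]

theorem getD_adv (a : ℕ) (ha : a < (vl k t).length) :
    (adv k t).getD ((adv k t).length / 2 + a) [] = zrow k t (vl k t)[a] := by
  rw [length_adv, ← length_codeA]
  unfold adv
  rw [List.getD_append_right _ _ _ _ (by omega), Nat.add_sub_cancel_left,
    List.getD_eq_getElem _ _ (by simpa using ha), List.getElem_map]

/-- the vertex of the host with number `p` -/
def D (hn : 0 < G.length) (p : ℕ) : Lab × (Fin G.length × Fin G.length) :=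
  (dec ((vl k t).getD (p / (G.length * G.length)) (0, 0, 0, 0)),
    (⟨p / G.length % G.length, Nat.mod_lt _ hn⟩, ⟨p % G.length, Nat.mod_lt _ hn⟩))

theorem lt_of_div {N m p : ℕ} (h : p < N * m) : p / m < N := Nat.div_lt_of_lt_mul (by
  rw [mul_comm]; exact h)

theorem hadjB_iff (q1 : PQ1) (q2 : PQ2) (hn : 0 < G.length) (p q : ℕ)
    (hp : p < (vl k t).length * (G.length * G.length))
    (hq : q < (vl k t).length * (G.length * G.length)) :
    hadjB (adv k t) G p q = true ↔
      HAdj k (parOf k t) (graph G) (D k t G hn p) (D k t G hn q) := by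
  have hx := lt_of_div hp
  have hy := lt_of_div hq
  obtain ⟨-, q1'⟩ := q1 k t
  obtain ⟨x, hxv, hxe⟩ := (q1' _).1 (List.getElem_mem hx)
  obtain ⟨y, hyv, hye⟩ := (q1' _).1 (List.getElem_mem hy)
  have hDp : D k t G hn p = (x, (⟨p / G.length % G.length, Nat.mod_lt _ hn⟩,
      ⟨p % G.length, Nat.mod_lt _ hn⟩)) := by
    unfold D
    rw [List.getD_eq_getElem _ _ hx, ← hxe, dec_labC]
  have hDq : D k t G hn q = (y, (⟨q / G.length % G.length, Nat.mod_lt _ hn⟩,
      ⟨q % G.length, Nat.mod_lt _ hn⟩)) := by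
    unfold D
    rw [List.getD_eq_getElem _ _ hy, ← hye, dec_labC]
  rw [hDp, hDq]
  unfold hadjB HAdj HV AAdj
  simp only [Bool.and_eq_true, Bool.or_eq_true]
  rw [entry_adv k t _ _ hx hy, entry_adv k t _ _ hy hx, getD_adv k t _ hx, getD_adv k t _ hy,
    ← hxe, ← hye, zrow_labC, zrow_labC, decide_eq_true_iff, decide_eq_true_iff,
    q2 k t x y hxv hyv, q2 k t y x hyv hxv]
  have e1 := okB_iff G (zone (parOf k t) x) ⟨p / G.length % G.length, Nat.mod_lt _ hn⟩
    ⟨p % G.length, Nat.mod_lt _ hn⟩
  have e2 := okB_iff G (zone (parOf k t) y) ⟨q / G.length % G.length, Nat.mod_lt _ hn⟩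
    ⟨q % G.length, Nat.mod_lt _ hn⟩
  have e3 := compB_iff (zone (parOf k t) x) (zone (parOf k t) y)
    ⟨p / G.length % G.length, Nat.mod_lt _ hn⟩ ⟨p % G.length, Nat.mod_lt _ hn⟩
    ⟨q / G.length % G.length, Nat.mod_lt _ hn⟩ ⟨q % G.length, Nat.mod_lt _ hn⟩
  simp only at e1 e2 e3
  rw [e1, e2, e3]
  constructor
  · rintro ⟨⟨⟨h1, h2⟩, h3⟩, h4⟩
    exact ⟨h1, ⟨hxv, h2⟩, ⟨hyv, h3⟩, h4⟩
  · rintro ⟨h1, ⟨-, h2⟩, ⟨-, h3⟩, h4⟩
    exact ⟨⟨⟨h1, h2⟩, h3⟩, h4⟩

theorem D_inj (q1 : PQ1) (hn : 0 < G.length) (p q : ℕ)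
    (hp : p < (vl k t).length * (G.length * G.length))
    (hq : q < (vl k t).length * (G.length * G.length))
    (h : D k t G hn p = D k t G hn q) : p = q := by
  have hx := lt_of_div hp
  have hy := lt_of_div hq
  obtain ⟨hnd, q1'⟩ := q1 k t
  obtain ⟨x, hxv, hxe⟩ := (q1' _).1 (List.getElem_mem hx)
  obtain ⟨y, hyv, hye⟩ := (q1' _).1 (List.getElem_mem hy)
  unfold D at h
  rw [List.getD_eq_getElem _ _ hx, ← hxe, dec_labC, List.getD_eq_getElem _ _ hy, ← hye,
    dec_labC] at h
  simp only [Prod.mk.injEq, Fin.mk.injEq] at h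
  obtain ⟨h1, h2, h3⟩ := h
  rw [h1, hye] at hxe
  have h4 : p / (G.length * G.length) = q / (G.length * G.length) := (hnd.getElem_inj_iff).1 hxe.symm
  rw [← Nat.div_div_eq_div_mul, ← Nat.div_div_eq_div_mul] at h4
  have h5 : p / G.length = q / G.length := by
    rw [← Nat.div_add_mod (p / G.length) G.length, h4, h2, Nat.div_add_mod]
  rw [← Nat.div_add_mod p G.length, h5, h3, Nat.div_add_mod]

theorem D_surj (q1 : PQ1) (hn : 0 < G.length) (x : Lab) (hx : Vx k (parOf k t) x)
    (u v : Fin G.length) : ∃ p < (vl k t).length * (G.length * G.length),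
      D k t G hn p = (x, (u, v)) := by
  obtain ⟨hnd, q1'⟩ := q1 k t
  obtain ⟨b, hb, hbe⟩ := List.getElem_of_mem ((q1' (labC x)).2 ⟨x, hx, rfl⟩)
  have hu := u.2
  have hv := v.2
  refine ⟨(b * G.length + u) * G.length + v, ?_, ?_⟩
  · have h1 : (b * G.length + u) * G.length + v < (b * G.length + u + 1) * G.length := by
      rw [add_mul _ 1]; omega
    have h2 : (b * G.length + u + 1) ≤ (b + 1) * G.length := by
      rw [add_mul b 1]; omega
    have h3 : (b + 1) * G.length ≤ (vl k t).length * G.length := Nat.mul_le_mul_right _ hb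
    calc _ < (b * G.length + u + 1) * G.length := h1
      _ ≤ ((vl k t).length * G.length) * G.length := Nat.mul_le_mul_right _ (h2.trans h3)
      _ = _ := by ring
  · have e1 : ((b * G.length + u) * G.length + v) / G.length = b * G.length + u := by
      rw [mul_comm, Nat.mul_add_div hn, Nat.div_eq_of_lt hv, add_zero]
    have e2 : ((b * G.length + u) * G.length + v) % G.length = v := by
      rw [Nat.mul_add_mod_self_right]
      exact Nat.mod_eq_of_lt hv
    have e3 : (b * G.length + u) / G.length = b := by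
      rw [mul_comm, Nat.mul_add_div hn, Nat.div_eq_of_lt hu, add_zero]
    have e4 : (b * G.length + u) % G.length = u := by
      rw [Nat.mul_add_mod_self_right]
      exact Nat.mod_eq_of_lt hu
    have e5 : ((b * G.length + u) * G.length + v) / (G.length * G.length) = b := by
      rw [← Nat.div_div_eq_div_mul, e1, e3]
    unfold D
    rw [Prod.mk.injEq, Prod.mk.injEq]
    refine ⟨?_, Fin.ext ?_, Fin.ext ?_⟩
    · rw [e5, List.getD_eq_getElem _ _ hb, hbe, dec_labC]
    · simp only [e1, e4]
    · exact e2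

theorem length_hCode : (hCode (adv k t) G).length =
    (vl k t).length * (G.length * G.length) := by
  simp [hCode, length_adv]

theorem entry_hCode (p q : ℕ) (hp : p < (vl k t).length * (G.length * G.length))
    (hq : q < (vl k t).length * (G.length * G.length)) :
    entry (hCode (adv k t) G) p q = hadjB (adv k t) G p q := by
  have h1 : (hCode (adv k t) G).getD p [] =
      (List.range ((adv k t).length / 2 * (G.length * G.length))).map
        fun q => hadjB (adv k t) G p q := by
    rw [List.getD_eq_getElem _ _ (by rw [length_hCode]; exact hp)]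
    simp [hCode]
  unfold entry
  rw [h1, List.getD_eq_getElem _ _ (by simpa [length_adv] using hq), List.getElem_map,
    List.getElem_range]

end

end IQ10

open IQ10 in
theorem Q10 (q1 : PQ1) (q2 : PQ2) (q5 : PQ5) (r9 : PR9) (r10 : PR10) (q12 : PQ12) : PQ10 := by
  intro k t ht G
  have hA := q5 k t ht
  rw [red_fst]
  show Clique (G, k) ↔ Embeds (graph (codeA k t)) (graph (hCode (adv k t) G))
  obtain ⟨hnd, q1'⟩ := q1 k t
  rcases Nat.eq_zero_or_pos G.length with h0 | hn
  · rcases Nat.eq_zero_or_pos k with rfl | hk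
    · have hl : (codeA 0 t).length = 0 := by simp [codeA, vl]
      constructor
      · intro _
        refine ⟨fun a => absurd a.2 (by omega), fun a => absurd a.2 (by omega),
          fun a => absurd a.2 (by omega)⟩
      · intro _
        exact ⟨∅, by simp⟩
    · constructor
      · rintro ⟨s, hs⟩
        have h2 : s.card = k := hs.card_eq
        obtain ⟨i, -⟩ := Finset.card_pos.1 (by omega : 0 < s.card)
        exact absurd i.2 (by simp only; omega)
      · rintro ⟨φ, -, -⟩
        exfalso
        have hv : Vx k (parOf k t) (.core 0 0 0) := ⟨hk, hk, by have := hA.z4 0 0 hk hk; omega⟩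
        have hm := (q1' _).2 ⟨_, hv, rfl⟩
        have hlen : 0 < (codeA k t).length := by
          rw [length_codeA]
          exact List.length_pos_of_mem hm
        have h5 := lt_of_lt_of_eq (φ ⟨0, hlen⟩).2 (length_hCode k t G)
        simp [h0] at h5
  · rw [q12 G k hn]
    constructor
    · intro hc
      obtain ⟨f, hf⟩ := r10 k (parOf k t) (graph G) hA hc
      have hex : ∀ a : Fin (codeA k t).length, ∃ (p : Fin (hCode (adv k t) G).length) (x : Lab),
          Vx k (parOf k t) x ∧ labC x = (vl k t)[a.1]'(lt_of_lt_of_eq a.2 (length_codeA k t)) ∧ D k t G hn p = f x := by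
        intro a
        have ha : a.1 < (vl k t).length := lt_of_lt_of_eq a.2 (length_codeA k t)
        obtain ⟨x, hx, hxe⟩ := (q1' _).1 (List.getElem_mem ha)
        obtain ⟨hv1, -⟩ := hf.vx x hx
        obtain ⟨p, hp, hpe⟩ := D_surj k t G q1 hn (f x).1 hv1 (f x).2.1 (f x).2.2
        exact ⟨⟨p, by rw [length_hCode]; exact hp⟩, x, hx, hxe, hpe⟩
      choose φ x hx hxe hD using hex
      have hinj : Function.Injective φ := by
        intro a b hab
        have h1 : f (x a) = f (x b) := by rw [← hD a, ← hD b, hab]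
        have h2 := hf.inj _ _ (hx a) (hx b) h1
        have h3 := hxe a
        rw [h2, hxe b] at h3
        exact Fin.ext ((hnd.getElem_inj_iff).1 h3).symm
      refine ⟨φ, hinj, ?_⟩
      intro a b hab
      have ha : a.1 < (vl k t).length := lt_of_lt_of_eq a.2 (length_codeA k t)
      have hb : b.1 < (vl k t).length := lt_of_lt_of_eq b.2 (length_codeA k t)
      have hpa : (φ a).1 < (vl k t).length * (G.length * G.length) :=
        lt_of_lt_of_eq (φ a).2 (length_hCode k t G)
      have hpb : (φ b).1 < (vl k t).length * (G.length * G.length) :=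
        lt_of_lt_of_eq (φ b).2 (length_hCode k t G)
      obtain ⟨hne, hor⟩ := hab
      refine ⟨fun e => hne (hinj e), ?_⟩
      rw [entry_hCode k t G _ _ hpa hpb, entry_hCode k t G _ _ hpb hpa,
        hadjB_iff k t G q1 q2 hn _ _ hpa hpb, hadjB_iff k t G q1 q2 hn _ _ hpb hpa, hD, hD]
      rw [entry_codeA k t _ _ ha hb, entry_codeA k t _ _ hb ha, ← hxe a, ← hxe b,
        decide_eq_true_iff, decide_eq_true_iff, q2 k t _ _ (hx a) (hx b),
        q2 k t _ _ (hx b) (hx a)] at hor
      rcases hor with h | h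
      · exact Or.inl (hf.adj _ _ h)
      · exact Or.inr (hf.adj _ _ h)
    · rintro ⟨φ, hφ, hadj⟩
      have hidx : ∀ y, Vx k (parOf k t) y → (vl k t).idxOf (labC y) < (codeA k t).length := by
        intro y hy
        rw [length_codeA]
        exact List.idxOf_lt_length_of_mem ((q1' _).2 ⟨y, hy, rfl⟩)
      have hget : ∀ y, ∀ h : Vx k (parOf k t) y,
          (vl k t)[(vl k t).idxOf (labC y)]'(by
            have := hidx y h; rw [length_codeA] at this; exact this) = labC y := by
        intro y h
        exact List.getElem_idxOf _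
      classical
      let f : Lab → Lab × (Fin G.length × Fin G.length) := fun y =>
        if h : Vx k (parOf k t) y then D k t G hn (φ ⟨_, hidx y h⟩)
        else (y, (⟨0, hn⟩, ⟨0, hn⟩))
      have hf : ∀ y, ∀ h : Vx k (parOf k t) y, f y = D k t G hn (φ ⟨_, hidx y h⟩) := by
        intro y h
        exact dif_pos h
      have hlt : ∀ a, (φ a).1 < (vl k t).length * (G.length * G.length) := by
        intro a
        exact lt_of_lt_of_eq (φ a).2 (length_hCode k t G)
      have hfadj : ∀ x y, AE k (parOf k t) x y → HAdj k (parOf k t) (graph G) (f x) (f y) := by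
        intro x y hxy
        obtain ⟨hx, hy⟩ := AE_vx hA hxy
        have hne := AE_ne hA hxy
        have hix := hidx x hx
        have hiy := hidx y hy
        rw [hf x hx, hf y hy]
        have hgx := hget x hx
        have hgy := hget y hy
        have h1 : (graph (codeA k t)).Adj ⟨_, hix⟩ ⟨_, hiy⟩ := by
          refine ⟨?_, Or.inl ?_⟩
          · intro e
            rw [Fin.mk.injEq] at e
            apply hne
            rw [← dec_labC x, ← dec_labC y, ← hgx, ← hgy]
            congr 1
            simp only [e]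
          · have hix' := hix
            have hiy' := hiy
            rw [length_codeA] at hix' hiy'
            rw [entry_codeA k t _ _ hix' hiy', hgx, hgy, decide_eq_true_iff, q2 k t x y hx hy]
            exact hxy
        obtain ⟨-, h2⟩ := hadj _ _ h1
        rw [entry_hCode k t G _ _ (hlt _) (hlt _), entry_hCode k t G _ _ (hlt _) (hlt _),
          hadjB_iff k t G q1 q2 hn _ _ (hlt _) (hlt _),
          hadjB_iff k t G q1 q2 hn _ _ (hlt _) (hlt _)] at h2
        rcases h2 with h2 | h2
        · exact h2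
        · exact HAdj_symm h2
      refine r9 k (parOf k t) (graph G) f hA ⟨?_, hfadj, ?_⟩
      · intro x y hx hy hxy
        rw [hf x hx, hf y hy] at hxy
        have h1 := D_inj k t G q1 hn _ _ (hlt _) (hlt _) hxy
        have h2 := hφ (Fin.ext h1)
        rw [Fin.mk.injEq] at h2
        have hgx := hget x hx
        have hgy := hget y hy
        rw [← dec_labC x, ← dec_labC y, ← hgx, ← hgy]
        congr 1
        simp only [h2]
      · intro x hx
        obtain ⟨y, hy⟩ := exists_nb x hx
        exact (hfadj x y hy).2.1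

end Pool.Agent.PEmb
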