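import Pool.Agent.Work.MP_cfa43e_lc.Stmts

/-!
# Q4: parameters as lists
-/

set_option autoImplicit false

namespace Pool.Agent.PEmb

namespace IQ4

open Classical

/-- list of cycle lengths -/
noncomputable def Z (k : ℕ) (P : Par) : List ℕ :=
  (List.range (k * k)).map fun c => P.z (c / k) (c % k)

/-- list of roots -/
noncomputable def R (k : ℕ) (P : Par) : List ℕ :=
  (List.range (k * k * 4)).map fun m => P.r (m / 4 / k) (m / 4 % k) (m % 4)

/-- list of the lengths of the legs -/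
noncomputable def L (k : ℕ) (P : Par) : List ℕ :=
  (List.range (k * k * 2)).map fun m =>
    if Ex k (decide (m % 2 = 1)) (m / 2 / k) (m / 2 % k) then
      P.l (decide (m % 2 = 1)) (m / 2 / k) (m / 2 % k) else 2 * (Z k P).sum + 2

theorem getD_map_range (n : ℕ) (f : ℕ → ℕ) (m : ℕ) (h : m < n) :
    ((List.range n).map f).getD m 0 = f m := by
  rw [List.getD_eq_getElem _ _ (by simpa using h)]
  simp

theorem getZ (k : ℕ) (P : Par) (c : ℕ) (hc : c < k * k) :
    (Z k P).getD c 0 = P.z (c / k) (c % k) := getD_map_range _ _ _ hc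

theorem getR (k : ℕ) (P : Par) (c d : ℕ) (hc : c < k * k) (hd : d < 4) :
    (R k P).getD (c * 4 + d) 0 = P.r (c / k) (c % k) d := by
  unfold R
  rw [getD_map_range _ _ _ (by omega)]
  have h1 : (c * 4 + d) / 4 = c := by omega
  have h2 : (c * 4 + d) % 4 = d := by omega
  rw [h1, h2]

theorem getL (k : ℕ) (P : Par) (c b : ℕ) (hc : c < k * k) (hb : b < 2) :
    (L k P).getD (c * 2 + b) 0 = if Ex k (decide (b = 1)) (c / k) (c % k) then
      P.l (decide (b = 1)) (c / k) (c % k) else 2 * (Z k P).sum + 2 := by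
  unfold L
  rw [getD_map_range _ _ _ (by omega)]
  have h1 : (c * 2 + b) / 2 = c := by omega
  have h2 : (c * 2 + b) % 2 = b := by omega
  rw [h1, h2]

theorem cell (k i j : ℕ) (hi : i < k) (hj : j < k) :
    i * k + j < k * k ∧ (i * k + j) / k = i ∧ (i * k + j) % k = j := by
  have hk : 0 < k := by omega
  refine ⟨?_, ?_, ?_⟩
  · have h1 : (i + 1) * k ≤ k * k := Nat.mul_le_mul_right k hi
    rw [Nat.add_mul, one_mul] at h1
    omega
  · rw [mul_comm, Nat.mul_add_div hk, Nat.div_eq_of_lt hj, add_zero]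
  · rw [mul_comm, Nat.mul_add_mod, Nat.mod_eq_of_lt hj]

theorem ex_lt {k : ℕ} {o : Bool} {i j : ℕ} (h : Ex k o i j) : i < k ∧ j < k := by
  cases o
  · have h1 : i < k := h.1
    have h2 : j + 1 < k := h.2
    omega
  · have h1 : i + 1 < k := h.1
    have h2 : j < k := h.2
    omega

theorem mem_Z {k : ℕ} {P : Par} {a : ℕ} (ha : a ∈ Z k P) :
    ∃ i j, i < k ∧ j < k ∧ a = P.z i j := by
  unfold Z at ha
  rw [List.mem_map] at ha
  obtain ⟨c, hc, rfl⟩ := ha
  rw [List.mem_range] at hc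
  have hk : 0 < k := by
    rcases Nat.eq_zero_or_pos k with h | h
    · subst h
      omega
    · exact h
  exact ⟨c / k, c % k, Nat.div_lt_of_lt_mul hc, Nat.mod_lt c hk, rfl⟩

theorem hz (k : ℕ) (P : Par) (i j : ℕ) (hi : i < k) (hj : j < k) :
    (parOf k [Z k P, R k P, L k P]).z i j = P.z i j := by
  obtain ⟨h1, h2, h3⟩ := cell k i j hi hj
  show (Z k P).getD (i * k + j) 0 = _
  rw [getZ k P _ h1, h2, h3]

theorem hr (k : ℕ) (P : Par) (i j d : ℕ) (hi : i < k) (hj : j < k) (hd : d < 4) :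
    (parOf k [Z k P, R k P, L k P]).r i j d = P.r i j d := by
  obtain ⟨h1, h2, h3⟩ := cell k i j hi hj
  show (R k P).getD ((i * k + j) * 4 + d) 0 = _
  rw [getR k P _ _ h1 hd, h2, h3]

theorem hlg (k : ℕ) (P : Par) (o : Bool) (i j : ℕ) (h : Ex k o i j) :
    (parOf k [Z k P, R k P, L k P]).l o i j = P.l o i j := by
  obtain ⟨hi, hj⟩ := ex_lt h
  obtain ⟨h1, h2, h3⟩ := cell k i j hi hj
  cases o
  · show (L k P).getD ((i * k + j) * 2 + 0) 0 = _
    rw [getL k P _ 0 h1 (by omega), h2, h3]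
    exact if_pos h
  · show (L k P).getD ((i * k + j) * 2 + 1) 0 = _
    rw [getL k P _ 1 h1 (by omega), h2, h3]
    exact if_pos h

end IQ4

open IQ4 in
theorem Q4 : PQ4 := by
  classical
  intro V k P G hA hP
  have hro : ∀ o : Bool, ro o < 4 := by decide
  have hri : ∀ o : Bool, ri o < 4 := by decide
  refine ⟨[Z k P, R k P, L k P], ?_, ?_⟩
  · have hk : ∀ c, c < k * k → 0 < k ∧ c / k < k ∧ c % k < k := by
      intro c hc
      have hk : 0 < k := by
        rcases Nat.eq_zero_or_pos k with h | h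
        · subst h
          omega
        · exact h
      exact ⟨hk, Nat.div_lt_of_lt_mul hc, Nat.mod_lt c hk⟩
    refine ⟨?_, ?_, ?_, ?_, ?_, ?_⟩
    · show (Z k P).length = k * k
      simp [Z]
    · show (Z k P).Nodup
      unfold Z
      refine List.Nodup.map_on ?_ List.nodup_range
      intro c hc c' hc' h
      rw [List.mem_range] at hc hc'
      obtain ⟨_, h1, h2⟩ := hk c hc
      obtain ⟨_, h3, h4⟩ := hk c' hc'
      obtain ⟨e1, e2⟩ := hA.zinj _ _ _ _ h1 h2 h3 h4 h
      rw [← Nat.div_add_mod c k, ← Nat.div_add_mod c' k, e1, e2]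
    · intro a ha
      obtain ⟨i, j, hi, hj, rfl⟩ := mem_Z (show a ∈ Z k P from ha)
      exact hA.z4 i j hi hj
    · intro c hc d hd
      show (R k P).getD (c * 4 + d) 0 < (Z k P).getD c 0
      rw [getR k P c d hc hd, getZ k P c hc]
      obtain ⟨_, h1, h2⟩ := hk c hc
      exact hA.rlt _ _ _ h1 h2 hd
    · intro c hc d hd d' hd' hdd h
      change (R k P).getD (c * 4 + d) 0 = (R k P).getD (c * 4 + d') 0 at h
      rw [getR k P c d hc hd, getR k P c d' hc hd'] at h
      obtain ⟨_, h1, h2⟩ := hk c hc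
      exact hdd (hA.rinj _ _ _ _ h1 h2 hd hd' h)
    · intro a ha m hm
      have ha' : a ∈ Z k P := ha
      show 2 * a + 2 ≤ (L k P).getD m 0
      have h0 : (L k P).getD m 0 = _ := getD_map_range _ _ _ hm
      rw [h0]
      split_ifs with hex
      · obtain ⟨i, j, hi, hj, rfl⟩ := mem_Z ha'
        exact hA.lbig _ _ _ _ _ hex hi hj
      · have := List.single_le_sum (fun x _ => Nat.zero_le x) a ha'
        omega
  · obtain ⟨φ, h1, h2⟩ := hP
    have hV : ∀ x, Vx k (parOf k [Z k P, R k P, L k P]) x → Vx k P x := by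
      rintro (⟨i, j, s⟩ | ⟨o, i, j, s⟩) h
      · exact ⟨h.1, h.2.1, by rw [← hz k P i j h.1 h.2.1]; exact h.2.2⟩
      · exact ⟨h.1, h.2.1, by rw [← hlg k P o i j h.1]; exact h.2.2⟩
    refine ⟨φ, fun x y hx hy => h1 x y (hV x hx) (hV y hy), ?_⟩
    intro x y hxy
    apply h2
    cases hxy with
    | cyc i j s hi hj hs => exact AE.cyc i j s hi hj (by rw [← hz k P i j hi hj]; exact hs)
    | close i j hi hj =>
      rw [hz k P i j hi hj]
      exact AE.close i j hi hj
    | out o i j h =>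
      obtain ⟨hi, hj⟩ := ex_lt h
      rw [hr k P i j _ hi hj (hro o)]
      exact AE.out o i j h
    | step o i j s h hs hl' =>
      exact AE.step o i j s h hs (by rw [← hlg k P o i j h]; exact hl')
    | inn o i j h =>
      rw [hlg k P o i j h, hr k P _ _ _ h.1 h.2 (hri o)]
      exact AE.inn o i j h

end Pool.Agent.PEmb
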