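import Pool.Agent.Work.MP_cfa43e_lc.Stmts
import Pool.Agent.Work.PT.BitEnc
import Pool.Agent.Work.MP_5296b6_lc.Bd.B02

/-!
# Q9: the reduction is computed in polynomial time
-/

set_option autoImplicit false

namespace Pool.Agent.PEmb

open Pool.Agent.PT N487b59b3 Pool.Agent.Work.MP_5296b6_lc

namespace IQ9

/-- Parsing of a list of bit strings. -/
def dLL (x : List Bool) : List (List Bool) := (pList x).map decBits

theorem dLL_eq (a : List (List Bool)) : dLL (bitEncode a) = a := by
  unfold dLL
  rw [pList_eq, List.map_map]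
  conv_rhs => rw [← List.map_id a]
  refine List.map_congr_left fun y _ => ?_
  exact decBits_bitEncode y

theorem ptf_pPair : PTF pPair := PTF.optionGetD ptf_undelimit (PTF.const _)

theorem ptf_pList : PTF pList := PTF.optionGetD ptf_undelimitBlocks (PTF.const _)

theorem ptf_dLL : PTF dLL :=
  PTF.map' (f := fun (_ : List Bool) y => decBits y) (PTF.decBits PTF.snd) ptf_pList

variable {α : Type} [Enc α]

theorem ptf_entry {c : α → Code} {i j : α → ℕ} (hc : PTF c) (hi : PTF i) (hj : PTF j) :
    PTF (fun a => entry (c a) (i a) (j a)) := by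
  unfold entry
  fun_prop

theorem ptf_adjB {c : α → Code} {i j : α → ℕ} (hc : PTF c) (hi : PTF i) (hj : PTF j) :
    PTF (fun a => adjB (c a) (i a) (j a)) := by
  unfold adjB
  exact (hi.ne hj).and ((ptf_entry hc hi hj).or (ptf_entry hc hj hi))

theorem ptf_okB {c : α → Code} {z : α → List Bool} {i j : α → ℕ} (hc : PTF c) (hz : PTF z)
    (hi : PTF i) (hj : PTF j) : PTF (fun a => okB (c a) (z a) (i a) (j a)) := by
  unfold okB
  exact PTF.cond ((hz.getD (PTF.const 0) (PTF.const false)).or
    (hz.getD (PTF.const 2) (PTF.const false))) (hi.eq hj) (ptf_adjB hc hi hj)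

theorem ptf_compB {z z' : α → List Bool} {u v u' v' : α → ℕ} (hz : PTF z) (hz' : PTF z')
    (hu : PTF u) (hv : PTF v) (hu' : PTF u') (hv' : PTF v') :
    PTF (fun a => compB (z a) (z' a) (u a) (v a) (u' a) (v' a)) := by
  unfold compB
  exact PTF.cond (hz.getD (PTF.const 0) (PTF.const false))
    (PTF.cond (hz'.getD (PTF.const 0) (PTF.const false)) (PTF.const false)
      (PTF.cond (hz.getD (PTF.const 1) (PTF.const false)) (hv.eq hv') (hu.eq hu')))
    (PTF.cond (hz'.getD (PTF.const 0) (PTF.const false))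
      (PTF.cond (hz'.getD (PTF.const 1) (PTF.const false)) (hv.eq hv') (hu.eq hu'))
      ((hu.eq hu').and (hv.eq hv')))

theorem ptf_hadjB {a : α → List (List Bool)} {G : α → Code} {p q : α → ℕ} (ha : PTF a)
    (hG : PTF G) (hp : PTF p) (hq : PTF q) :
    PTF (fun t => hadjB (a t) (G t) (p t) (q t)) := by
  unfold hadjB
  have hn : PTF (fun t => (G t).length) := hG.length
  have hnn := hn.mul hn
  have hx := hp.div hnn
  have hy := hq.div hnn
  have hl : PTF (fun t => (a t).length / 2) := ha.length.div (PTF.const 2)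
  have hz : PTF (fun t => (a t).getD ((a t).length / 2 + p t / ((G t).length * (G t).length)) []) :=
    ha.getD (hl.add hx) (PTF.const _)
  have hz' : PTF (fun t => (a t).getD ((a t).length / 2 + q t / ((G t).length * (G t).length)) []) :=
    ha.getD (hl.add hy) (PTF.const _)
  have hpu := (hp.div hn).mod hn
  have hpv := hp.mod hn
  have hqu := (hq.div hn).mod hn
  have hqv := hq.mod hn
  exact ((((ptf_entry ha hx hy).or (ptf_entry ha hy hx)).and (ptf_okB hG hz hpu hpv)).and
    (ptf_okB hG hz' hqu hqv)).and (ptf_compB hz hz' hpu hpv hqu hqv)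

theorem ptf_hCode {a : α → List (List Bool)} {G : α → Code} (ha : PTF a) (hG : PTF G) :
    PTF (fun t => hCode (a t) (G t)) := by
  unfold hCode
  have hr : PTF (fun t => List.range ((a t).length / 2 * ((G t).length * (G t).length))) :=
    ((ha.length.div (PTF.const 2)).mul (hG.length.mul hG.length)).range
  refine PTF.map' (f := fun t p => (List.range ((a t).length / 2 *
    ((G t).length * (G t).length))).map fun q => hadjB (a t) (G t) p q) ?_ hr
  refine PTF.map' (f := fun (t : α × ℕ) q => hadjB (a t.1) (G t.1) t.2 q) ?_ (hr.comp PTF.fst)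
  exact ptf_hadjB (ha.comp (PTF.fst.comp PTF.fst)) (hG.comp (PTF.fst.comp PTF.fst))
    (PTF.snd.comp PTF.fst) PTF.snd

end IQ9

theorem Q9 : PQ9 := by
  unfold PQ9 N68a2faeb.IsPolyTime N68a2faeb.IsPolyTimeWithEncoding
  have h1 : PTF (fun x : List Bool => IQ9.dLL (pPair x).1) :=
    IQ9.ptf_dLL.comp (PTF.fst.comp IQ9.ptf_pPair)
  have h2 : PTF (fun x : List Bool => IQ9.dLL (pPair (pPair x).2).1) :=
    IQ9.ptf_dLL.comp (PTF.fst.comp (IQ9.ptf_pPair.comp (PTF.snd.comp IQ9.ptf_pPair)))
  have h3 : PTF (fun x : List Bool => ((aCode (IQ9.dLL (pPair x).1),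
      hCode (IQ9.dLL (pPair x).1) (IQ9.dLL (pPair (pPair x).2).1)) : Code × Code)) := by
    refine PTF.pair ?_ (IQ9.ptf_hCode h1 h2)
    unfold aCode
    exact h1.take (h1.length.div (PTF.const 2))
  have h4 : EncP (Code × Code) := EncP.prod (EncP.list (EncP.list EncP.bool))
    (EncP.list (EncP.list EncP.bool))
  refine tm2_of (g := fun x => bitEncode ((aCode (IQ9.dLL (pPair x).1),
      hCode (IQ9.dLL (pPair x).1) (IQ9.dLL (pPair (pPair x).2).1)) : Code × Code))
    (h4.apply h3) ?_
  intro x
  obtain ⟨a, G, k⟩ := x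
  have e1 : pPair (bitEncode (a, (G, k))) = (bitEncode a, bitEncode (G, k)) := pPair_eq _
  have e2 : pPair (bitEncode (G, k)) = (bitEncode G, bitEncode k) := pPair_eq _
  show bitEncode ((aCode (IQ9.dLL (pPair (bitEncode (a, (G, k)))).1),
      hCode (IQ9.dLL (pPair (bitEncode (a, (G, k)))).1)
        (IQ9.dLL (pPair (pPair (bitEncode (a, (G, k)))).2).1)) : Code × Code) = bitEncode _
  rw [e1]
  dsimp only
  rw [e2]
  dsimp only
  rw [IQ9.dLL_eq, IQ9.dLL_eq]
  rfl

end Pool.Agent.PEmb
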