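import Pool.Agent.Work.MP_cfa43e_lc.Lab

/-!
# Codes of patterns and hosts
-/

set_option autoImplicit false

namespace Pool.Agent.PEmb

/-- The parameters given by lists of numbers. -/
def parOf (k : ℕ) (t : List (List ℕ)) : Par where
  z i j := (t.getD 0 []).getD (i * k + j) 0
  r i j d := (t.getD 1 []).getD ((i * k + j) * 4 + d) 0
  l o i j := (t.getD 2 []).getD ((i * k + j) * 2 + if o then 1 else 0) 0

/-- The lists `t` are admissible (primitive recursive version of `Adm`). -/
def AdmL (k : ℕ) (t : List (List ℕ)) : Prop :=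
  (t.getD 0 []).length = k * k ∧ (t.getD 0 []).Nodup ∧ (∀ a ∈ t.getD 0 [], 4 ≤ a) ∧
  (∀ c < k * k, ∀ d < 4, (t.getD 1 []).getD (c * 4 + d) 0 < (t.getD 0 []).getD c 0) ∧
  (∀ c < k * k, ∀ d < 4, ∀ d' < 4, d ≠ d' →
    (t.getD 1 []).getD (c * 4 + d) 0 ≠ (t.getD 1 []).getD (c * 4 + d') 0) ∧
  (∀ a ∈ t.getD 0 [], ∀ c < k * k * 2, 2 * a + 2 ≤ (t.getD 2 []).getD c 0)

/-- Codes of labels: `(0, i, j, s)` for `core`, `(1, i, j, s)` and `(2, i, j, s)` for `leg`. -/
abbrev LC := ℕ × ℕ × ℕ × ℕ

/-- The code of a label. -/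
def labC : Lab → LC
  | .core i j s => (0, i, j, s)
  | .leg false i j s => (1, i, j, s)
  | .leg true i j s => (2, i, j, s)

/-- The number of vertices of kind `o` (`0` cycle, `1` horizontal leg, `2` vertical leg) at cell
`(i, j)`. -/
def cnt (k : ℕ) (t : List (List ℕ)) (o i j : ℕ) : ℕ :=
  if o = 0 then (parOf k t).z i j
  else if o = 1 then (if j + 1 < k then (parOf k t).l false i j - 1 else 0)
  else (if i + 1 < k then (parOf k t).l true i j - 1 else 0)

/-- The list of the codes of the vertices of the pattern. -/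
def vl (k : ℕ) (t : List (List ℕ)) : List LC :=
  (List.range 3).flatMap fun o => (List.range k).flatMap fun i => (List.range k).flatMap fun j =>
    (List.range (cnt k t o i j)).map fun s => (o, i, j, if o = 0 then s else s + 1)

/-- Directed edges of the pattern between codes of vertices. -/
def AEc (k : ℕ) (t : List (List ℕ)) (x y : LC) : Prop :=
  (x.1 = 0 ∧ y.1 = 0 ∧ x.2.1 = y.2.1 ∧ x.2.2.1 = y.2.2.1 ∧
    (y.2.2.2 = x.2.2.2 + 1 ∨ (x.2.2.2 + 1 = (parOf k t).z x.2.1 x.2.2.1 ∧ y.2.2.2 = 0))) ∨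
  (x.1 = 0 ∧ y.1 = 1 ∧ x.2.1 = y.2.1 ∧ x.2.2.1 = y.2.2.1 ∧ y.2.2.2 = 1 ∧
    x.2.2.2 = (parOf k t).r x.2.1 x.2.2.1 0) ∨
  (x.1 = 0 ∧ y.1 = 2 ∧ x.2.1 = y.2.1 ∧ x.2.2.1 = y.2.2.1 ∧ y.2.2.2 = 1 ∧
    x.2.2.2 = (parOf k t).r x.2.1 x.2.2.1 2) ∨
  (x.1 ≠ 0 ∧ x.1 = y.1 ∧ x.2.1 = y.2.1 ∧ x.2.2.1 = y.2.2.1 ∧ y.2.2.2 = x.2.2.2 + 1) ∨
  (x.1 = 1 ∧ y.1 = 0 ∧ y.2.1 = x.2.1 ∧ y.2.2.1 = x.2.2.1 + 1 ∧
    x.2.2.2 + 1 = (parOf k t).l false x.2.1 x.2.2.1 ∧
    y.2.2.2 = (parOf k t).r y.2.1 y.2.2.1 1) ∨
  (x.1 = 2 ∧ y.1 = 0 ∧ y.2.1 = x.2.1 + 1 ∧ y.2.2.1 = x.2.2.1 ∧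
    x.2.2.2 + 1 = (parOf k t).l true x.2.1 x.2.2.1 ∧
    y.2.2.2 = (parOf k t).r y.2.1 y.2.2.1 3)

instance (k : ℕ) (t : List (List ℕ)) (x y : LC) : Decidable (AEc k t x y) := by
  unfold AEc; infer_instance

/-- The adjacency matrix of the pattern. -/
def codeA (k : ℕ) (t : List (List ℕ)) : Code :=
  (vl k t).map fun x => (vl k t).map fun y => decide (AEc k t x y)

/-- The zone of the vertex with code `x`, in three bits: is it a port? is its leg vertical? is it
in a diagonal cell? -/
def zrow (k : ℕ) (t : List (List ℕ)) (x : LC) : List Bool :=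
  if x.1 = 0 then [false, false, decide (x.2.1 = x.2.2.1)]
  else if x.1 = 1 then
    (if x.2.2.2 < (parOf k t).l false x.2.1 x.2.2.1 / 2 then
      [false, false, decide (x.2.1 = x.2.2.1)]
    else if x.2.2.2 = (parOf k t).l false x.2.1 x.2.2.1 / 2 then [true, false, false]
    else [false, false, decide (x.2.1 = x.2.2.1 + 1)])
  else
    (if x.2.2.2 < (parOf k t).l true x.2.1 x.2.2.1 / 2 then
      [false, false, decide (x.2.1 = x.2.2.1)]
    else if x.2.2.2 = (parOf k t).l true x.2.1 x.2.2.1 / 2 then [true, true, false]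
    else [false, false, decide (x.2.1 + 1 = x.2.2.1)])

/-- The advice: the adjacency matrix of the pattern, followed by the zones of its vertices. -/
def adv (k : ℕ) (t : List (List ℕ)) : List (List Bool) := codeA k t ++ (vl k t).map (zrow k t)

/-! ### The reduction -/

/-- The pattern, from the advice. -/
def aCode (a : List (List Bool)) : Code := a.take (a.length / 2)

/-- Adjacency in the graph with matrix `G`. -/
def adjB (G : Code) (u v : ℕ) : Bool := decide (u ≠ v) && (entry G u v || entry G v u)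

/-- Allowed values in the zone `z` (three bits). -/
def okB (G : Code) (z : List Bool) (u v : ℕ) : Bool :=
  if z.getD 0 false || z.getD 2 false then decide (u = v) else adjB G u v

/-- Compatible values. -/
def compB (z z' : List Bool) (u v u' v' : ℕ) : Bool :=
  if z.getD 0 false then
    (if z'.getD 0 false then false else if z.getD 1 false then decide (v = v') else
      decide (u = u'))
  else if z'.getD 0 false then
    (if z'.getD 1 false then decide (v = v') else decide (u = u'))
  else decide (u = u') && decide (v = v')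

/-- Adjacency of the vertices `p` and `q` of the host; `p` stands for the vertex
`p / (n * n)` of the pattern with values `p / n % n` and `p % n`. -/
def hadjB (a : List (List Bool)) (G : Code) (p q : ℕ) : Bool :=
  let n := G.length
  let x := p / (n * n)
  let y := q / (n * n)
  let z := a.getD (a.length / 2 + x) []
  let z' := a.getD (a.length / 2 + y) []
  (entry a x y || entry a y x) && okB G z (p / n % n) (p % n) && okB G z' (q / n % n) (q % n) &&
    compB z z' (p / n % n) (p % n) (q / n % n) (q % n)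

/-- The host. -/
def hCode (a : List (List Bool)) (G : Code) : Code :=
  (List.range (a.length / 2 * (G.length * G.length))).map fun p =>
    (List.range (a.length / 2 * (G.length * G.length))).map fun q => hadjB a G p q

/-- The reduction. -/
def red (x : List (List Bool) × (Code × ℕ)) : Code × Code := (aCode x.1, hCode x.1 x.2.1)

end Pool.Agent.PEmb
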