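import Mathlib
import Pool.Prelude.Def_H_3587d628

/-!
# Parameterized embedding problems: definitions

Finite graphs are given by adjacency matrices. An fpt-reduction is a polynomial-time function of the
instance and of a computable function of its parameter.
-/

set_option autoImplicit false

namespace Pool.Agent.PEmb

/-- A code of a finite graph: an adjacency matrix. -/
abbrev Code := List (List Bool)

/-- The entry `(i, j)` of a matrix (`false` outside the matrix). -/
def entry (c : Code) (i j : ℕ) : Bool := (c.getD i []).getD j false

/-- The graph with adjacency matrix `c`; its vertices are `0, ..., c.length - 1`. -/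
def graph (c : Code) : SimpleGraph (Fin c.length) where
  Adj i j := i ≠ j ∧ (entry c i j = true ∨ entry c j i = true)
  symm := ⟨fun _ _ h => ⟨h.1.symm, h.2.symm⟩⟩
  loopless := ⟨fun _ h => h.1 rfl⟩

/-- `G` embeds into `H`: `G` is isomorphic to a (not necessarily induced) subgraph of `H`. -/
def Embeds {V W : Type} (G : SimpleGraph V) (H : SimpleGraph W) : Prop :=
  ∃ f : V → W, Function.Injective f ∧ ∀ x y, G.Adj x y → H.Adj (f x) (f y)

/-- An fpt-reduction from the problem `P` with parameter `κ` to the problem `Q` with parameter
`κ'`: the new instance is computed in polynomial time from the old one and from a computable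
function `g` of the old parameter, and the new parameter is bounded by a computable function of
the old one. -/
def FptReducible {α β : Type} [N487b59b3 α] [N487b59b3 β] (P : α → Prop) (κ : α → ℕ)
    (Q : β → Prop) (κ' : β → ℕ) : Prop :=
  ∃ (g : ℕ → List (List Bool)) (b : ℕ → ℕ) (R : List (List Bool) × α → β),
    Computable g ∧ Computable b ∧ N68a2faeb.IsPolyTime R ∧
    ∀ x, (P x ↔ Q (R (g (κ x), x))) ∧ κ' (R (g (κ x), x)) ≤ b (κ x)

/-- `p`-CLIQUE: the instance `(G, k)` is a yes-instance if `G` has a clique with `k` vertices. -/
def Clique (x : Code × ℕ) : Prop :=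
  ∃ s : Finset (Fin x.1.length), (graph x.1).IsNClique x.2 s

/-- The parameter of `p`-CLIQUE. -/
def cliqueParam (x : Code × ℕ) : ℕ := x.2

/-- `p`-EMB(`C`): given a graph `A` in `C` and a graph `B`, does `A` embed into `B`? -/
def Emb (C : Code → Prop) (x : Code × Code) : Prop := C x.1 ∧ Embeds (graph x.1) (graph x.2)

/-- The parameter of `p`-EMB(`C`): the size of the encoding of `A`. -/
def embParam (x : Code × Code) : ℕ := (N487b59b3.bitEncode x.1).length

/-- The class `C` of graphs is closed under subgraphs (and under isomorphism). -/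
def Monotone (C : Code → Prop) : Prop :=
  ∀ A B : Code, C B → Embeds (graph A) (graph B) → C A

/-- `G` has tree width at most `w`: it has a tree decomposition into parts with at most `w + 1`
vertices. -/
def TreeWidthLE {V : Type} (G : SimpleGraph V) (w : ℕ) : Prop :=
  ∃ (T : Type) (t : SimpleGraph T) (bag : T → Set V), t.IsTree ∧
    (∀ v, (t.induce {x | v ∈ bag x}).Connected) ∧
    (∀ u v, G.Adj u v → ∃ x, u ∈ bag x ∧ v ∈ bag x) ∧
    ∀ x, (bag x).encard ≤ w + 1

/-- `G` has a `K × K` grid minor: connected disjoint branch sets `B x y` such that branch sets of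
neighbouring points of the grid are joined by an edge. -/
structure Grid {V : Type} (G : SimpleGraph V) (K : ℕ) (B : ℕ → ℕ → Set V) : Prop where
  conn : ∀ x y, x < K → y < K → (G.induce (B x y)).Connected
  disj : ∀ x y x' y', x < K → y < K → x' < K → y' < K → (x, y) ≠ (x', y') →
    Disjoint (B x y) (B x' y')
  hor : ∀ x y, x + 1 < K → y < K → ∃ a ∈ B x y, ∃ b ∈ B (x + 1) y, G.Adj a b
  ver : ∀ x y, x < K → y + 1 < K → ∃ a ∈ B x y, ∃ b ∈ B x (y + 1), G.Adj a b

end Pool.Agent.PEmb
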