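import Pool.Agent.Work.MP_cfa43e_lc.Defs

/-!
# The pattern graph (cycles of distinct lengths joined by long legs) and its host
-/

set_option autoImplicit false

namespace Pool.Agent.PEmb

/-- Vertices of the pattern: `core i j s` is vertex `s` of the cycle of cell `(i, j)`,
`leg o i j s` is the vertex at distance `s` (from the cycle of `(i, j)`) of the leg which goes from
cell `(i, j)` to the next cell to the right (`o = false`) or below (`o = true`). -/
inductive Lab
  | core (i j s : ℕ)
  | leg (o : Bool) (i j s : ℕ)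
  deriving DecidableEq

/-- Parameters: lengths of the cycles, positions of the four roots, lengths of the legs. -/
structure Par where
  z : ℕ → ℕ → ℕ
  r : ℕ → ℕ → ℕ → ℕ
  l : Bool → ℕ → ℕ → ℕ

/-- The end cell of a leg. -/
def nx : Bool → ℕ → ℕ → ℕ × ℕ
  | false, i, j => (i, j + 1)
  | true, i, j => (i + 1, j)

/-- The number of the root where a leg starts (root `0` to the right, root `2` down). -/
def ro : Bool → ℕ
  | false => 0
  | true => 2

/-- The number of the root where a leg ends (root `1` from the left, root `3` from above). -/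
def ri : Bool → ℕ
  | false => 1
  | true => 3

/-- The leg exists. -/
def Ex (k : ℕ) (o : Bool) (i j : ℕ) : Prop := (nx o i j).1 < k ∧ (nx o i j).2 < k

/-- Vertices of the pattern. -/
def Vx (k : ℕ) (P : Par) : Lab → Prop
  | .core i j s => i < k ∧ j < k ∧ s < P.z i j
  | .leg o i j s => Ex k o i j ∧ 1 ≤ s ∧ s < P.l o i j

/-- Directed edges of the pattern. -/
inductive AE (k : ℕ) (P : Par) : Lab → Lab → Prop
  | cyc (i j s : ℕ) (hi : i < k) (hj : j < k) (hs : s + 1 < P.z i j) :
      AE k P (.core i j s) (.core i j (s + 1))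
  | close (i j : ℕ) (hi : i < k) (hj : j < k) : AE k P (.core i j (P.z i j - 1)) (.core i j 0)
  | out (o : Bool) (i j : ℕ) (h : Ex k o i j) : AE k P (.core i j (P.r i j (ro o))) (.leg o i j 1)
  | step (o : Bool) (i j s : ℕ) (h : Ex k o i j) (hs : 1 ≤ s) (hl : s + 1 < P.l o i j) :
      AE k P (.leg o i j s) (.leg o i j (s + 1))
  | inn (o : Bool) (i j : ℕ) (h : Ex k o i j) :
      AE k P (.leg o i j (P.l o i j - 1))
        (.core (nx o i j).1 (nx o i j).2 (P.r (nx o i j).1 (nx o i j).2 (ri o)))

/-- Adjacency in the pattern. -/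
def AAdj (k : ℕ) (P : Par) (x y : Lab) : Prop := AE k P x y ∨ AE k P y x

/-- Admissible parameters. -/
structure Adm (k : ℕ) (P : Par) : Prop where
  z4 : ∀ i j, i < k → j < k → 4 ≤ P.z i j
  zinj : ∀ i j i' j', i < k → j < k → i' < k → j' < k → P.z i j = P.z i' j' → i = i' ∧ j = j'
  rlt : ∀ i j d, i < k → j < k → d < 4 → P.r i j d < P.z i j
  rinj : ∀ i j d d', i < k → j < k → d < 4 → d' < 4 → P.r i j d = P.r i j d' → d = d'
  lbig : ∀ o i j i' j', Ex k o i j → i' < k → j' < k → 2 * P.z i' j' + 2 ≤ P.l o i j

/-- Zones: the cells, and the ports (the middle vertices of the legs). -/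
inductive Zone
  | cell (i j : ℕ)
  | port (o : Bool)
  deriving DecidableEq

/-- The zone of a vertex. -/
def zone (P : Par) : Lab → Zone
  | .core i j _ => .cell i j
  | .leg o i j s => if s < P.l o i j / 2 then .cell i j else if s = P.l o i j / 2 then .port o
      else .cell (nx o i j).1 (nx o i j).2

variable {V : Type}

/-- The values allowed in a zone. -/
def OKv (G : SimpleGraph V) : Zone → V × V → Prop
  | .cell i j, p => if i = j then p.1 = p.2 else G.Adj p.1 p.2
  | .port _, p => p.1 = p.2

/-- Compatible values in neighbouring zones. -/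
def Comp : Zone → Zone → V × V → V × V → Prop
  | .cell _ _, .cell _ _, p, q => p = q
  | .cell _ _, .port false, p, q => p.1 = q.1
  | .cell _ _, .port true, p, q => p.2 = q.2
  | .port false, .cell _ _, p, q => p.1 = q.1
  | .port true, .cell _ _, p, q => p.2 = q.2
  | .port _, .port _, _, _ => False

/-- Vertices of the host. -/
def HV (k : ℕ) (P : Par) (G : SimpleGraph V) (p : Lab × (V × V)) : Prop :=
  Vx k P p.1 ∧ OKv G (zone P p.1) p.2

/-- Adjacency in the host. -/
def HAdj (k : ℕ) (P : Par) (G : SimpleGraph V) (p q : Lab × (V × V)) : Prop :=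
  AAdj k P p.1 q.1 ∧ HV k P G p ∧ HV k P G q ∧ Comp (zone P p.1) (zone P q.1) p.2 q.2

/-- An embedding of the pattern into the host. -/
structure IsEmb (k : ℕ) (P : Par) (G : SimpleGraph V) (f : Lab → Lab × (V × V)) : Prop where
  inj : ∀ x y, Vx k P x → Vx k P y → f x = f y → x = y
  adj : ∀ x y, AE k P x y → HAdj k P G (f x) (f y)
  vx : ∀ x, Vx k P x → HV k P G (f x)

/-- The graph has a clique with `k` vertices, in the form of a function. -/
def HasClique (k : ℕ) (G : SimpleGraph V) : Prop :=
  ∃ w : ℕ → V, ∀ i j, i < k → j < k → i ≠ j → G.Adj (w i) (w j)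

end Pool.Agent.PEmb
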