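import Pool.Agent.Work.MP_cfa43e_lc.Cod

/-!
# Items

Every item is a `Prop` `PXn`; it is to be proved as `theorem Xn : PXn` in the file `Xn.lean`.
-/

set_option autoImplicit false

namespace Pool.Agent.PEmb

/-! ## Part 2: rigidity (k, P admissible, f an embedding of the pattern into the host) -/

/-- R1: a neighbour in the host of a leg vertex which is not a port has one of two labels, and the
same value if it is not a port.  First kind: leg vertex before the port. -/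
def PR1 : Prop := ∀ {V : Type} (k : ℕ) (P : Par) (G : SimpleGraph V), Adm k P →
  ∀ (o : Bool) (i j s : ℕ) (v : V × V) (q : Lab × (V × V)), s < P.l o i j / 2 →
    HAdj k P G (.leg o i j s, v) q →
    (q = (if s = 1 then .core i j (P.r i j (ro o)) else .leg o i j (s - 1), v)) ∨
      (q.1 = .leg o i j (s + 1) ∧ (s + 1 < P.l o i j / 2 → q.2 = v))

/-- R2: leg vertices behind the port. -/
def PR2 : Prop := ∀ {V : Type} (k : ℕ) (P : Par) (G : SimpleGraph V), Adm k P →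
  ∀ (o : Bool) (i j s : ℕ) (v : V × V) (q : Lab × (V × V)), P.l o i j / 2 < s →
    HAdj k P G (.leg o i j s, v) q →
    (q = (if s + 1 = P.l o i j then
        .core (nx o i j).1 (nx o i j).2 (P.r (nx o i j).1 (nx o i j).2 (ri o))
        else .leg o i j (s + 1), v)) ∨
      (q.1 = .leg o i j (s - 1) ∧ (P.l o i j / 2 < s - 1 → q.2 = v))

/-- R3: neighbours in the host of a core vertex. -/
def PR3 : Prop := ∀ {V : Type} (k : ℕ) (P : Par) (G : SimpleGraph V), Adm k P →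
  ∀ (i j s : ℕ) (v : V × V) (q : Lab × (V × V)), HAdj k P G (.core i j s, v) q →
    q.2 = v ∧ ((q.1 = .core i j ((s + 1) % P.z i j)) ∨
      (q.1 = .core i j ((s + P.z i j - 1) % P.z i j)) ∨
      (∃ o, Ex k o i j ∧ s = P.r i j (ro o) ∧ q.1 = .leg o i j 1) ∨
      (∃ o i' j', Ex k o i' j' ∧ nx o i' j' = (i, j) ∧ s = P.r i j (ri o) ∧
        q.1 = .leg o i' j' (P.l o i' j' - 1)))

/-- R4: core vertices are not mapped to ports. -/
def PR4 : Prop := ∀ {V : Type} (k : ℕ) (P : Par) (G : SimpleGraph V) (f : Lab → Lab × (V × V)),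
  Adm k P → IsEmb k P G f → ∀ i j s, i < k → j < k → s < P.z i j →
    ∀ o, zone P (f (.core i j s)).1 ≠ .port o

/-- R5: the cycle of a cell is mapped onto a copy of itself. -/
def PR5 : Prop := ∀ {V : Type} (k : ℕ) (P : Par) (G : SimpleGraph V) (f : Lab → Lab × (V × V)),
  Adm k P → IsEmb k P G f → ∀ i j, i < k → j < k → ∃ (v : V × V) (π : ℕ → ℕ),
    (∀ s, s < P.z i j → π s < P.z i j ∧ f (.core i j s) = (.core i j (π s), v)) ∧
    (∀ s', s' < P.z i j → ∃ s, s < P.z i j ∧ π s = s')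

/-- Dart `d` at cell `(i, j)` exists: `0` out to the right, `1` in from the left, `2` out down,
`3` in from above. -/
def Dt (k i j d : ℕ) : Prop :=
  i < k ∧ j < k ∧ ((d = 0 ∧ j + 1 < k) ∨ (d = 1 ∧ 1 ≤ j) ∨ (d = 2 ∧ i + 1 < k) ∨ (d = 3 ∧ 1 ≤ i))

/-- Vertex at distance `s` from the cycle of `(i, j)` on the half leg of dart `d` (`s = 0`: the
root). -/
def hl (P : Par) (i j d s : ℕ) : Lab :=
  if s = 0 then .core i j (P.r i j d)
  else if d = 0 then .leg false i j s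
  else if d = 1 then .leg false i (j - 1) (P.l false i (j - 1) - s)
  else if d = 2 then .leg true i j s
  else .leg true (i - 1) j (P.l true (i - 1) j - s)

/-- Distance from the root to the port on the half leg of dart `d`. -/
def al (P : Par) (i j d : ℕ) : ℕ :=
  if d = 0 then P.l false i j / 2
  else if d = 1 then P.l false i (j - 1) - P.l false i (j - 1) / 2
  else if d = 2 then P.l true i j / 2
  else P.l true (i - 1) j - P.l true (i - 1) j / 2

/-- The leg of dart `d` has length `lg`. -/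
def lg (P : Par) (i j d : ℕ) : ℕ :=
  if d = 0 then P.l false i j
  else if d = 1 then P.l false i (j - 1)
  else if d = 2 then P.l true i j
  else P.l true (i - 1) j

/-- The situation on the legs: dart `d` of cell `(i, j)` is mapped to dart `τ i j d` of the copy of
the cell with value `val i j`. -/
def Leg6 {V : Type} (k : ℕ) (P : Par) (f : Lab → Lab × (V × V)) (val : ℕ → ℕ → V × V)
    (τ : ℕ → ℕ → ℕ → ℕ) : Prop :=
  ∀ i j d, Dt k i j d → Dt k i j (τ i j d) ∧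
    (∀ d', Dt k i j d' → τ i j d = τ i j d' → d = d') ∧
    al P i j (τ i j d) < lg P i j d ∧
    ∀ s, s ≤ al P i j (τ i j d) → (f (hl P i j d s)).1 = hl P i j (τ i j d) s ∧
      (s < al P i j (τ i j d) → (f (hl P i j d s)).2 = val i j)

/-- R6: the leg of dart `d` of a cell starts in the copy of the cell along a whole half leg
(uses R5 and R1, R2, R3). -/
def PR6 : Prop := ∀ {V : Type} (k : ℕ) (P : Par) (G : SimpleGraph V) (f : Lab → Lab × (V × V)),
  Adm k P → IsEmb k P G f → ∃ (val : ℕ → ℕ → V × V) (τ : ℕ → ℕ → ℕ → ℕ),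
    (∀ i j s, i < k → j < k → s < P.z i j → ∃ s', s' < P.z i j ∧
      f (.core i j s) = (.core i j s', val i j)) ∧ Leg6 k P f val τ

/-- R7: the total length argument (sum over all darts): every leg is mapped to two half legs. -/
def PR7 : Prop := ∀ {V : Type} (k : ℕ) (P : Par) (G : SimpleGraph V) (f : Lab → Lab × (V × V))
  (val : ℕ → ℕ → V × V) (τ : ℕ → ℕ → ℕ → ℕ), Adm k P → IsEmb k P G f → Leg6 k P f val τ →
    ∀ o i j, Ex k o i j → al P i j (τ i j (ro o)) +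
      al P (nx o i j).1 (nx o i j).2 (τ (nx o i j).1 (nx o i j).2 (ri o)) = P.l o i j

/-- R8: neighbouring cells have compatible values. -/
def PR8 : Prop := ∀ {V : Type} (k : ℕ) (P : Par) (G : SimpleGraph V) (f : Lab → Lab × (V × V))
  (val : ℕ → ℕ → V × V) (τ : ℕ → ℕ → ℕ → ℕ), Adm k P → IsEmb k P G f → Leg6 k P f val τ →
    (∀ o i j, Ex k o i j → al P i j (τ i j (ro o)) +
      al P (nx o i j).1 (nx o i j).2 (τ (nx o i j).1 (nx o i j).2 (ri o)) = P.l o i j) →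
    (∀ i j, i < k → j + 1 < k → (val i j).1 = (val i (j + 1)).1) ∧
    (∀ i j, i + 1 < k → j < k → (val i j).2 = (val (i + 1) j).2)

/-- R9: an embedding gives a clique (from R6, R7, R8; `OKv` of the copies from `IsEmb.vx`). -/
def PR9 : Prop := ∀ {V : Type} (k : ℕ) (P : Par) (G : SimpleGraph V) (f : Lab → Lab × (V × V)),
  Adm k P → IsEmb k P G f → HasClique k G

/-- R10: a clique gives an embedding. -/
def PR10 : Prop := ∀ {V : Type} (k : ℕ) (P : Par) (G : SimpleGraph V),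
  Adm k P → HasClique k G → ∃ f, IsEmb k P G f

/-! ## Part 3: extraction of a pattern from a grid minor -/

section
variable {V : Type}

/-- `l` is a path of `G` from `a` to `b` with vertices in `S`. -/
def IsPth (G : SimpleGraph V) (S : Set V) (a b : V) (l : List V) : Prop :=
  l.IsChain G.Adj ∧ l.Nodup ∧ l.head? = some a ∧ l.getLast? = some b ∧ ∀ x ∈ l, x ∈ S

/-- `Z` is a cycle of `G` (at least three vertices in cyclic order). -/
def IsCyc (G : SimpleGraph V) (Z : List V) : Prop :=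
  Z.IsChain G.Adj ∧ Z.Nodup ∧ 3 ≤ Z.length ∧
    ∀ a b, Z.head? = some a → Z.getLast? = some b → G.Adj b a

/-- A column of a ladder: the upper path is `pm ++ a :: pp`, the lower path is `qm ++ b :: qp`, and
the rung is `a :: rh ++ [b]`. -/
structure Col (V : Type) where
  pm : List V
  a : V
  pp : List V
  qm : List V
  b : V
  qp : List V
  rh : List V

/-- the upper path -/
def Col.P (c : Col V) : List V := c.pm ++ c.a :: c.pp
/-- the lower path -/
def Col.Q (c : Col V) : List V := c.qm ++ c.b :: c.qp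

/-- A ladder with columns `0, ..., L` in disjoint regions `D x`, and four ends:
`e 2` upper left, `e 1` lower left, `e 0` upper right, `e 3` lower right. -/
structure IsLad (G : SimpleGraph V) (L : ℕ) (D : ℕ → Set V) (c : ℕ → Col V) (e : ℕ → V) :
    Prop where
  dis : ∀ x x', x ≤ L → x' ≤ L → x ≠ x' → Disjoint (D x) (D x')
  mem : ∀ x, x ≤ L → ∀ v ∈ (c x).P ++ (c x).Q ++ (c x).rh, v ∈ D x
  nd : ∀ x, x ≤ L → ((c x).P ++ (c x).Q ++ (c x).rh).Nodup
  chP : ∀ x, x ≤ L → (c x).P.IsChain G.Adj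
  chQ : ∀ x, x ≤ L → (c x).Q.IsChain G.Adj
  chR : ∀ x, x ≤ L → ((c x).a :: (c x).rh ++ [(c x).b]).IsChain G.Adj
  linkP : ∀ x, x < L → ∀ u ∈ (c x).P.getLast?, ∀ v ∈ (c (x + 1)).P.head?, G.Adj u v
  linkQ : ∀ x, x < L → ∀ u ∈ (c x).Q.getLast?, ∀ v ∈ (c (x + 1)).Q.head?, G.Adj u v
  adj2 : ∀ v ∈ (c 0).P.head?, G.Adj (e 2) v
  adj1 : ∀ v ∈ (c 0).Q.head?, G.Adj (e 1) v
  adj0 : ∀ v ∈ (c L).P.getLast?, G.Adj v (e 0)
  adj3 : ∀ v ∈ (c L).Q.getLast?, G.Adj v (e 3)
  enD : ∀ d, d < 4 → ∀ x, x ≤ L → e d ∉ D x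
  einj : ∀ d d', d < 4 → d' < 4 → e d = e d' → d = d'

/-- length of the upper path between columns `x` and `x + 1` -/
def tl (c : ℕ → Col V) (x : ℕ) : ℕ := (c x).pp.length + (c (x + 1)).pm.length + 1
/-- length of the lower path between columns `x` and `x + 1` -/
def bl (c : ℕ → Col V) (x : ℕ) : ℕ := (c x).qp.length + (c (x + 1)).qm.length + 1
/-- length of rung `x` -/
def sl (c : ℕ → Col V) (x : ℕ) : ℕ := (c x).rh.length + 1

/-- A cell: a cycle `Z` and disjoint paths `w d` from the cycle to the four ends. -/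
structure IsCell (G : SimpleGraph V) (S : Set V) (e : ℕ → V) (Z : List V) (w : ℕ → List V) :
    Prop where
  cyc : IsCyc G Z
  zS : ∀ v ∈ Z, v ∈ S
  pth : ∀ d, d < 4 → ∃ a ∈ Z, IsPth G (S ∪ {e d}) a (e d) (w d)
  off : ∀ d, d < 4 → ∀ v ∈ (w d).tail, v ∉ Z
  dis : ∀ d d', d < 4 → d' < 4 → d ≠ d' → List.Disjoint (w d) (w d')

/-- What a region `S` with four ends can do. -/
structure Cap (G : SimpleGraph V) (S : Set V) (e : ℕ → V) (n μ : ℕ) : Prop where
  pass : ∀ a b, (a = 1 ∨ a = 2) → (b = 0 ∨ b = 3) →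
    ∃ l, IsPth G (S ∪ {e a, e b}) (e a) (e b) l ∧ 4 * μ ≤ l.length
  cell : ∀ F : Finset ℕ, F.card < n → ∃ Z w, IsCell G S e Z w ∧ 4 ≤ Z.length ∧ Z.length ≤ μ ∧
    Z.length ∉ F
  enS : ∀ d, d < 4 → e d ∉ S
  einj : ∀ d d', d < 4 → d' < 4 → e d = e d' → d = d'

/-- The pattern is contained in `G`. -/
def PatIn (k : ℕ) (P : Par) (G : SimpleGraph V) : Prop :=
  ∃ φ : Lab → V, (∀ x y, Vx k P x → Vx k P y → φ x = φ y → x = y) ∧
    ∀ x y, AE k P x y → G.Adj (φ x) (φ y)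

end

/-- E1: paths inside a connected set. -/
def PE1 : Prop := ∀ {V : Type} (G : SimpleGraph V) (S : Set V), (G.induce S).Connected →
  ∀ a ∈ S, ∀ b ∈ S, ∃ l, IsPth G S a b l

/-- E2: the shortest path inside a connected set between two of its subsets. -/
def PE2 : Prop := ∀ {V : Type} (G : SimpleGraph V) (S A B : Set V), (G.induce S).Connected →
  A ⊆ S → B ⊆ S → A.Nonempty → B.Nonempty → Disjoint A B → ∃ a ∈ A, ∃ b ∈ B, ∃ rh : List V,
    IsPth G S a b (a :: rh ++ [b]) ∧ ∀ x ∈ rh, x ∉ A ∧ x ∉ B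

/-- E3: ladders in a grid model. -/
def PE3 : Prop := ∀ {V : Type} (G : SimpleGraph V) (K : ℕ) (B : ℕ → ℕ → Set V), Grid G K B →
  ∀ X Y L, 1 ≤ X → X + L + 1 < K → Y + 1 < K → ∃ (c : ℕ → Col V) (e : ℕ → V),
    IsLad G L (fun x => B (X + x) Y ∪ B (X + x) (Y + 1)) c e ∧ e 2 ∈ B (X - 1) (Y + 1) ∧
      e 1 ∈ B (X - 1) Y ∧ e 0 ∈ B (X + L + 1) (Y + 1) ∧ e 3 ∈ B (X + L + 1) Y

/-- E4: the long path (zigzag through all rungs; one of the two zigzags is long). -/
def PE4 : Prop := ∀ {V : Type} (G : SimpleGraph V) (L : ℕ) (D : ℕ → Set V) (c : ℕ → Col V)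
  (e : ℕ → V), IsLad G L D c e → 1 ≤ L → ∀ a b, (a = 1 ∨ a = 2) → (b = 0 ∨ b = 3) →
    ∃ l, IsPth G ((⋃ x ∈ Set.Iic L, D x) ∪ {e a, e b}) (e a) (e b) l ∧
      (∑ x ∈ Finset.range L, (tl c x + bl c x)) + (∑ x ∈ Finset.range (L + 1), sl c x) ≤
        2 * l.length

/-- E5: the cycle between rungs `I < J` and its four paths to the ends. -/
def PE5 : Prop := ∀ {V : Type} (G : SimpleGraph V) (L : ℕ) (D : ℕ → Set V) (c : ℕ → Col V)
  (e : ℕ → V), IsLad G L D c e → ∀ I J, I < J → J ≤ L →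
    ∃ Z w, IsCell G (⋃ x ∈ Set.Iic L, D x) e Z w ∧
      Z.length = (∑ x ∈ Finset.Ico I J, (tl c x + bl c x)) + sl c I + sl c J

/-- E6: many different lengths. -/
def PE6 : Prop := ∀ (T s : ℕ → ℕ) (A N : ℕ) (F : Finset ℕ), (∀ x, 1 ≤ T x) →
  F.card ^ 2 + 2 ≤ N → ∃ I J, A ≤ I ∧ I < J ∧ J ≤ A + N ∧
    (∑ x ∈ Finset.Ico I J, T x) + s I + s J ∉ F

/-- E7: capabilities of a long ladder (from E4, E5, E6). -/
def PE7 : Prop := ∀ {V : Type} (G : SimpleGraph V) (n L : ℕ) (D : ℕ → Set V) (c : ℕ → Col V)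
  (e : ℕ → V), IsLad G L D c e → 8 * (n ^ 2 + 3) ≤ L → ∃ μ, Cap G (⋃ x ∈ Set.Iic L, D x) e n μ

/-- E8: rotation by a half turn. -/
def PE8 : Prop := ∀ {V : Type} (G : SimpleGraph V) (S : Set V) (e : ℕ → V) (n μ : ℕ),
  Cap G S e n μ →
    Cap G S (fun d => if d = 0 then e 1 else if d = 1 then e 0 else if d = 2 then e 3 else e 2)
      n μ

/-- E9: monotone subsequences (Erdős and Szekeres). -/
def PE9 : Prop := ∀ (m M : ℕ) (μ : ℕ → ℕ), (m + 1) ^ 2 < M → ∃ φ : ℕ → ℕ,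
  (∀ a b, a < b → b ≤ m → φ a < φ b) ∧ (∀ a, a ≤ m → φ a < M) ∧
    ((∀ a b, a < b → b ≤ m → μ (φ a) ≤ μ (φ b)) ∨ (∀ a b, a < b → b ≤ m → μ (φ b) ≤ μ (φ a)))

/-- Neighbouring points of the grid. -/
def GAdj (p q : ℕ × ℕ) : Prop :=
  (p.1 = q.1 ∧ (p.2 + 1 = q.2 ∨ q.2 + 1 = p.2)) ∨ (p.2 = q.2 ∧ (p.1 + 1 = q.1 ∨ q.1 + 1 = p.1))

/-- A connected set of points of the grid. -/
def GConn (T : Set (ℕ × ℕ)) : Prop :=
  ∀ p ∈ T, ∀ q ∈ T, Relation.ReflTransGen (fun x y => x ∈ T ∧ y ∈ T ∧ GAdj x y) p q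

/-- horizontal and vertical segments -/
def hs (y x0 x1 : ℕ) : Set (ℕ × ℕ) := {p | p.2 = y ∧ x0 ≤ p.1 ∧ p.1 ≤ x1}
def vs (x y0 y1 : ℕ) : Set (ℕ × ℕ) := {p | p.1 = x ∧ y0 ≤ p.2 ∧ p.2 ≤ y1}

/-- E10: the union of the branch sets over a connected set of points contains paths. -/
def PE10 : Prop := ∀ {V : Type} (G : SimpleGraph V) (K : ℕ) (B : ℕ → ℕ → Set V), Grid G K B →
  ∀ T : Set (ℕ × ℕ), (∀ p ∈ T, p.1 < K ∧ p.2 < K) → GConn T → ∀ p ∈ T, ∀ q ∈ T,
    ∀ a ∈ B p.1 p.2, ∀ b ∈ B q.1 q.2, ∃ l, IsPth G (⋃ p ∈ T, B p.1 p.2) a b l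

/-- E11: segments and unions of connected sets with a common point are connected. -/
def PE11 : Prop := (∀ y x0 x1, GConn (hs y x0 x1)) ∧ (∀ x y0 y1, GConn (vs x y0 y1)) ∧
  (∀ S T p, GConn S → GConn T → p ∈ S → p ∈ T → GConn (S ∪ T)) ∧ ∀ p, GConn {p}

/-- E12: concatenation of paths. -/
def PE12 : Prop := ∀ {V : Type} (G : SimpleGraph V) (S T : Set V) (a b c : V) (l l' : List V),
  IsPth G S a b l → IsPth G T b c l' → (∀ x, x ∈ l → x ∈ l' → x = b) →
    IsPth G (S ∪ T) a c (l ++ l'.tail) ∧ (∀ x, x ∈ l ++ l'.tail ↔ x ∈ l ∨ x ∈ l')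

section
variable (k L : ℕ) (X Y : ℕ → ℕ)

/-- block of the vertical leg which starts at cell number `i` (`n = k * k` cells) -/
def qv (k i : ℕ) : ℕ := 3 * (k * k) - 2 * i
/-- block of the horizontal leg which starts at cell number `i` -/
def qh (k i : ℕ) : ℕ := 3 * (k * k) - 2 * i - 1

/-- strands of the vertical leg from cell number `i` to cell number `i + k` -/
def S1 (i : ℕ) : Set (ℕ × ℕ) :=
  vs (X i - 1) (Y i + 1) (Y (qv k i) + 1) ∪ hs (Y (qv k i) + 1) (X i - 1) (X (qv k i) - 1)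
def S2 (i : ℕ) : Set (ℕ × ℕ) :=
  vs (X (qv k i) + L + 1) (Y (i + k) - 1) (Y (qv k i)) ∪
    (hs (Y (i + k) - 1) (X (i + k) + L + 1) (X (qv k i) + L + 1) ∪
      vs (X (i + k) + L + 1) (Y (i + k) - 1) (Y (i + k)))
/-- strands of the horizontal leg from cell number `i` to cell number `i + 1` -/
def S3 (i : ℕ) : Set (ℕ × ℕ) :=
  vs (X i + L + 1) (Y i + 1) (Y (qh k i) + 2) ∪
    (hs (Y (qh k i) + 2) (X i + L + 1) (X (qh k i) + L + 1) ∪
      vs (X (qh k i) + L + 1) (Y (qh k i) + 1) (Y (qh k i) + 2))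
def S4 (i : ℕ) : Set (ℕ × ℕ) :=
  hs (Y (qh k i) + 1) (X (i + 1) - 2) (X (qh k i) - 1) ∪
    (vs (X (i + 1) - 2) (Y (i + 1)) (Y (qh k i) + 1) ∪
      hs (Y (i + 1)) (X (i + 1) - 2) (X (i + 1) - 1))

/-- inner points of block `d` -/
def Rc (d : ℕ) : Set (ℕ × ℕ) := {p | X d ≤ p.1 ∧ p.1 ≤ X d + L ∧ (p.2 = Y d ∨ p.2 = Y d + 1)}

/-- the positions of the blocks `0, ..., 3 k²` -/
def Pos : Prop := 3 ≤ X 0 ∧ 3 ≤ Y 0 ∧ ∀ a b, a < b → b ≤ 3 * (k * k) →
  X a + L + 10 ≤ X b ∧ Y a + L + 10 ≤ Y b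

end

/-- Strand number `t` (`t = 0, 1, 2, 3`) of cell number `i`. -/
def St (k L : ℕ) (X Y : ℕ → ℕ) (t i : ℕ) : Set (ℕ × ℕ) :=
  if t = 0 then S1 k X Y i else if t = 1 then S2 k L X Y i else if t = 2 then S3 k L X Y i
  else S4 k X Y i

/-- Strand number `t` of cell number `i` is used: the vertical leg exists if `i + k < k * k`; the
horizontal leg exists if `i + 1 < k * k` (and more). -/
def Us (k t i : ℕ) : Prop := if t = 0 ∨ t = 1 then i + k < k * k else i + 1 < k * k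

/-- E13: the strands are connected. -/
def PE13 : Prop := ∀ (k L : ℕ) (X Y : ℕ → ℕ), Pos k L X Y → ∀ t i, t < 4 → Us k t i →
  GConn (St k L X Y t i)

/-- E14: the strands are disjoint. -/
def PE14 : Prop := ∀ (k L : ℕ) (X Y : ℕ → ℕ), Pos k L X Y → ∀ t i t' i', t < 4 → t' < 4 →
  Us k t i → Us k t' i' → (t, i) ≠ (t', i') → Disjoint (St k L X Y t i) (St k L X Y t' i')

/-- E15: the strands avoid the inner points of all blocks. -/
def PE15 : Prop := ∀ (k L : ℕ) (X Y : ℕ → ℕ), Pos k L X Y → ∀ t i d, t < 4 → Us k t i →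
  d ≤ 3 * (k * k) → Disjoint (St k L X Y t i) (Rc L X Y d)

/-- The union of the branch sets over a set of points. -/
def Rg {V : Type} (B : ℕ → ℕ → Set V) (T : Set (ℕ × ℕ)) : Set V := ⋃ p ∈ T, B p.1 p.2

/-- The blocks `0, ..., 3 k²`, with their ends and capabilities. -/
structure Blocks {V : Type} (G : SimpleGraph V) (K : ℕ) (B : ℕ → ℕ → Set V) (k L : ℕ)
    (X Y : ℕ → ℕ) (e : ℕ → ℕ → V) (μ : ℕ → ℕ) : Prop where
  grid : Grid G K B
  pos : Pos k L X Y
  bdX : X (3 * (k * k)) + L + 5 < K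
  bdY : Y (3 * (k * k)) + 5 < K
  cap : ∀ d, d ≤ 3 * (k * k) → Cap G (Rg B (Rc L X Y d)) (e d) (k * k) (μ d)
  e0 : ∀ d, d ≤ 3 * (k * k) → e d 0 ∈ B (X d + L + 1) (Y d + 1)
  e1 : ∀ d, d ≤ 3 * (k * k) → e d 1 ∈ B (X d - 1) (Y d)
  e2 : ∀ d, d ≤ 3 * (k * k) → e d 2 ∈ B (X d - 1) (Y d + 1)
  e3 : ∀ d, d ≤ 3 * (k * k) → e d 3 ∈ B (X d + L + 1) (Y d)
  mono : ∀ a b, a < b → b ≤ 3 * (k * k) → μ a ≤ μ b

/-- E16: the middle part of a vertical leg, from the upper left end of block `i` to the lower right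
end of block `i + k` (uses E10, E12, E13, E14, E15 and `Cap.pass`). -/
def PE16 : Prop := ∀ {V : Type} (G : SimpleGraph V) (K : ℕ) (B : ℕ → ℕ → Set V) (k L : ℕ)
  (X Y : ℕ → ℕ) (e : ℕ → ℕ → V) (μ : ℕ → ℕ), Blocks G K B k L X Y e μ → ∀ i, i + k < k * k →
    ∃ l, IsPth G (Rg B (S1 k X Y i ∪ S2 k L X Y i ∪ Rc L X Y (qv k i))) (e i 2) (e (i + k) 3) l ∧
      4 * μ (qv k i) ≤ l.length

/-- E17: the middle part of a horizontal leg. -/
def PE17 : Prop := ∀ {V : Type} (G : SimpleGraph V) (K : ℕ) (B : ℕ → ℕ → Set V) (k L : ℕ)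
  (X Y : ℕ → ℕ) (e : ℕ → ℕ → V) (μ : ℕ → ℕ), Blocks G K B k L X Y e μ → ∀ i, i + 1 < k * k →
    ∃ l, IsPth G (Rg B (S3 k L X Y i ∪ S4 k X Y i ∪ Rc L X Y (qh k i))) (e i 0) (e (i + 1) 1) l ∧
      4 * μ (qh k i) ≤ l.length

/-- E18: a choice with distinct values: `n` steps, each with a choice that avoids fewer than `n`
given values. -/
def PE18 : Prop := ∀ {α : Type} [Nonempty α] (n : ℕ) (ok : ℕ → α → Prop) (len : α → ℕ),
  (∀ i, i < n → ∀ F : Finset ℕ, F.card < n → ∃ x, ok i x ∧ len x ∉ F) →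
    ∃ c : ℕ → α, (∀ i, i < n → ok i (c i)) ∧
      ∀ i j, i < n → j < n → len (c i) = len (c j) → i = j

/-- E19: assembly of the pattern from cycles and legs. The cycle of cell `(i, j)` is `Z i j`, the
leg `(o, i, j)` is the path `Λ o i j`, from the root `ro o` of `(i, j)` to the root `ri o` of the
next cell; `rt i j d` is root `d`. -/
def PE19 : Prop := ∀ {V : Type} [Nonempty V] (G : SimpleGraph V) (k : ℕ) (Z : ℕ → ℕ → List V)
  (Λ : Bool → ℕ → ℕ → List V) (rt : ℕ → ℕ → ℕ → V),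
  (∀ i j, i < k → j < k → IsCyc G (Z i j) ∧ 4 ≤ (Z i j).length) →
  (∀ i j i' j', i < k → j < k → i' < k → j' < k → (Z i j).length = (Z i' j').length →
    i = i' ∧ j = j') →
  (∀ i j i' j', i < k → j < k → i' < k → j' < k → (i, j) ≠ (i', j') →
    List.Disjoint (Z i j) (Z i' j')) →
  (∀ i j d, i < k → j < k → d < 4 → rt i j d ∈ Z i j) →
  (∀ i j d d', i < k → j < k → d < 4 → d' < 4 → rt i j d = rt i j d' → d = d') →
  (∀ o i j, Ex k o i j → IsPth G Set.univ (rt i j (ro o))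
    (rt (nx o i j).1 (nx o i j).2 (ri o)) (Λ o i j)) →
  (∀ o i j i' j', Ex k o i j → i' < k → j' < k → 2 * (Z i' j').length + 3 ≤ (Λ o i j).length) →
  (∀ o i j i' j', Ex k o i j → i' < k → j' < k → ∀ v ∈ Λ o i j, v ∈ Z i' j' →
    v = rt i j (ro o) ∨ v = rt (nx o i j).1 (nx o i j).2 (ri o)) →
  (∀ o i j o' i' j', Ex k o i j → Ex k o' i' j' → (o, i, j) ≠ (o', i', j') →
    ∀ v ∈ Λ o i j, v ∉ Λ o' i' j') →
  ∃ P, Adm k P ∧ PatIn k P G

/-- E20: the pattern from blocks (uses E14-E19 and `Cap.cell`). -/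
def PE20 : Prop := ∀ {V : Type} (G : SimpleGraph V) (K : ℕ) (B : ℕ → ℕ → Set V) (k L : ℕ)
  (X Y : ℕ → ℕ) (e : ℕ → ℕ → V) (μ : ℕ → ℕ), Blocks G K B k L X Y e μ →
    ∃ P, Adm k P ∧ PatIn k P G

/-- E21: rotation of a grid model. -/
def PE21 : Prop := ∀ {V : Type} (G : SimpleGraph V) (K : ℕ) (B : ℕ → ℕ → Set V), Grid G K B →
  Grid G K (fun x y => B (K - 1 - x) (K - 1 - y))

/-- E22: blocks in a large grid model (uses E3, E7, E8, E9, E21). -/
def PE22 : Prop := ∀ k : ℕ, ∃ K : ℕ, ∀ {V : Type} (G : SimpleGraph V) (B : ℕ → ℕ → Set V),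
  Grid G K B → ∃ (B' : ℕ → ℕ → Set V) (L : ℕ) (X Y : ℕ → ℕ) (e : ℕ → ℕ → V) (μ : ℕ → ℕ),
    Blocks G K B' k L X Y e μ

/-- E23: extraction (from E20 and E22). -/
def PE23 : Prop := ∀ k : ℕ, ∃ K : ℕ, ∀ {V : Type} (G : SimpleGraph V) (B : ℕ → ℕ → Set V),
  Grid G K B → ∃ P, Adm k P ∧ PatIn k P G

/-! ## Part 1: the reduction -/

/-- Q1: the list of vertices. -/
def PQ1 : Prop := ∀ (k : ℕ) (t : List (List ℕ)), (vl k t).Nodup ∧
  ∀ x, x ∈ vl k t ↔ ∃ y, Vx k (parOf k t) y ∧ labC y = x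

/-- Q2: the edges. -/
def PQ2 : Prop := ∀ (k : ℕ) (t : List (List ℕ)) (y y' : Lab), Vx k (parOf k t) y →
  Vx k (parOf k t) y' → (AEc k t (labC y) (labC y') ↔ AE k (parOf k t) y y')

/-- Q3: a pattern in `G` gives an embedding of its code. -/
def PQ3 : Prop := ∀ {V : Type} (k : ℕ) (t : List (List ℕ)) (G : SimpleGraph V), AdmL k t →
  PatIn k (parOf k t) G → Embeds (graph (codeA k t)) G

/-- Q4: parameters as lists. -/
def PQ4 : Prop := ∀ {V : Type} (k : ℕ) (P : Par) (G : SimpleGraph V), Adm k P → PatIn k P G →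
  ∃ t, AdmL k t ∧ PatIn k (parOf k t) G

/-- Q5: admissible lists. -/
def PQ5 : Prop := ∀ (k : ℕ) (t : List (List ℕ)), AdmL k t → Adm k (parOf k t)

/-- Q6: admissibility is primitive recursive. -/
def PQ6 : Prop := PrimrecPred fun p : ℕ × List (List ℕ) => AdmL p.1 p.2

/-- Q7: the code of the pattern and the advice are primitive recursive. -/
def PQ7 : Prop := (Primrec fun p : ℕ × List (List ℕ) => codeA p.1 p.2) ∧
  Primrec fun p : ℕ × List (List ℕ) => adv p.1 p.2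

/-- Q8: unbounded search for a pattern in a decidable class (uses Q6, Q7). -/
def PQ8 : Prop := ∀ C : Code → Prop, ComputablePred C → (∀ k, ∃ t, AdmL k t ∧ C (codeA k t)) →
  ∃ T : ℕ → List (List ℕ), Computable T ∧ ∀ k, AdmL k (T k) ∧ C (codeA k (T k))

/-- Q9: the reduction is computed in polynomial time. -/
def PQ9 : Prop := N68a2faeb.IsPolyTime red

/-- Q10: correctness of the reduction (uses Q1, Q2, Q5, R9, R10, Q12). -/
def PQ10 : Prop := ∀ (k : ℕ) (t : List (List ℕ)), AdmL k t → ∀ G : Code,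
  (Clique (G, k) ↔ Embeds (graph (red (adv k t, (G, k))).1) (graph (red (adv k t, (G, k))).2))

/-- Q11: the parameter of the image is primitive recursive. -/
def PQ11 : Prop := Primrec fun c : Code => (N487b59b3.bitEncode c).length

/-- Q12: cliques. -/
def PQ12 : Prop := ∀ (G : Code) (k : ℕ), 0 < G.length →
  (Clique (G, k) ↔ HasClique k (graph G))

/-- Main theorem, first version (from E23, Q3, Q4, Q8, Q9, Q10, Q11, Q7). -/
def PMain : Prop := ∀ C : Code → Prop, ComputablePred C → Monotone C →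
  (∀ K, ∃ A, C A ∧ ∃ B, Grid (graph A) K B) →
    FptReducible Clique cliqueParam (Emb C) embParam

/-! ## Part 5: membership in W[1] -/

/-- M1: the table of all codes in `C` of size at most `m`. -/
def PM1 : Prop := ∀ C : Code → Prop, ComputablePred C → ∃ g : ℕ → List (List Bool), Computable g ∧
  ∀ (m : ℕ) (A : Code), (N487b59b3.bitEncode A).length ≤ m →
    (N487b59b3.bitEncode A ∈ g m ↔ C A)

/-- The graph of pairs: adjacent pairs are compatible. -/
def prod (A B : Code) : Code :=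
  (List.range (A.length * B.length)).map fun p => (List.range (A.length * B.length)).map fun q =>
    decide (p / B.length ≠ q / B.length) && decide (p % B.length ≠ q % B.length) &&
      (!(adjB A (p / B.length) (q / B.length)) || adjB B (p % B.length) (q % B.length))

/-- The reduction of the embedding problem to `p`-CLIQUE. -/
def redM (x : List (List Bool) × (Code × Code)) : Code × ℕ :=
  if N487b59b3.bitEncode x.2.1 ∈ x.1 then (prod x.2.1 x.2.2, x.2.1.length) else ([], 1)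

/-- M2: it is computed in polynomial time. -/
def PM2 : Prop := N68a2faeb.IsPolyTime redM

/-- M3: cliques of the graph of pairs are embeddings. -/
def PM3 : Prop := ∀ A B : Code, Clique (prod A B, A.length) ↔ Embeds (graph A) (graph B)

/-- M4: `p`-EMB(`C`) is in W[1] (from M1, M2, M3). -/
def PM4 : Prop := ∀ C : Code → Prop, ComputablePred C →
  FptReducible (Emb C) embParam Clique cliqueParam

end Pool.Agent.PEmb
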