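import Pool.Agent.Work.MP_cfa43e_lc.Bd.B03
import Pool.Agent.Work.Tools.GridThm.Main

/-!
# Unbounded tree width
-/

set_option autoImplicit false

namespace Pool.Agent.PEmb

theorem main_tw (hg : GridThm.PGrid) (C : Code → Prop) (hC : ComputablePred C)
    (hsub : Monotone C) (htw : ∀ w, ∃ A, C A ∧ ¬ TreeWidthLE (graph A) w) :
    FptReducible Clique cliqueParam (Emb C) embParam := by
  refine main C hC hsub fun K => ?_
  obtain ⟨w, hw⟩ := hg K
  obtain ⟨A, hA, hA2⟩ := htw w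
  obtain ⟨B, hB⟩ := hw (graph A) hA2
  exact ⟨A, hA, B, ⟨hB.conn, hB.disj, hB.hor, hB.ver⟩⟩

end Pool.Agent.PEmb
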